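import Pool.Agent.W_MP_7d29a1_pr.Law

/-!
Consequences of membership in the set defining the wandering exponent.
-/

namespace Pool.Agent.W_MP_7d29a1_pr

open MeasureTheory ProbabilityTheory Filter

/-- A sequence with values in `[0, 1]` has liminf at most one. -/
theorem liminf_le_one {u : ℕ → ℝ} (h0 : ∀ n, 0 ≤ u n) (h1 : ∀ n, u n ≤ 1) :
    liminf u atTop ≤ 1 := by
  have hb : IsBoundedUnder (· ≥ ·) atTop u := isBoundedUnder_of ⟨0, h0⟩
  have hc : IsBoundedUnder (· ≤ ·) atTop fun _ : ℕ => (1 : ℝ) :=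
    isBoundedUnder_of ⟨1, fun _ => le_rfl⟩
  have h2 : liminf u atTop ≤ liminf (fun _ : ℕ => (1 : ℝ)) atTop :=
    liminf_le_liminf (Eventually.of_forall h1) hb hc.isCoboundedUnder_ge
  rwa [liminf_const] at h2

theorem ae_liminf_eq_one {Ω : Type*} [MeasurableSpace Ω] {μ : Measure Ω} [IsProbabilityMeasure μ]
    {u : ℕ → Ω → ℝ} (h0 : ∀ n x, 0 ≤ u n x) (h1 : ∀ n x, u n x ≤ 1)
    (hI : ∫ x, liminf (fun n => u n x) atTop ∂μ = 1) :
    ∀ᵐ x ∂μ, liminf (fun n => u n x) atTop = 1 := by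
  have hint : Integrable (fun x => liminf (fun n => u n x) atTop) μ := by
    by_contra hcon
    rw [integral_undef hcon] at hI
    exact zero_ne_one hI
  have h2 : ∫ x, (1 - liminf (fun n => u n x) atTop) ∂μ = 0 := by
    rw [integral_sub (integrable_const _) hint, hI, integral_const]
    simp
  have h3 : 0 ≤ fun x => 1 - liminf (fun n => u n x) atTop := by
    intro x
    have := liminf_le_one (u := fun n => u n x) (fun n => h0 n x) (fun n => h1 n x)
    simp only [Pi.zero_apply]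
    linarith
  have h4 := (integral_eq_zero_iff_of_nonneg h3 ((integrable_const _).sub hint)).1 h2
  filter_upwards [h4] with x hx
  simp only [Pi.zero_apply] at hx
  linarith

theorem exists_bad_small {Ω : Type*} [MeasurableSpace Ω] {μ : Measure Ω} [IsProbabilityMeasure μ]
    {u : ℕ → Ω → ℝ} (hm : ∀ n, Measurable (u n)) (h0 : ∀ n x, 0 ≤ u n x) (h1 : ∀ n x, u n x ≤ 1)
    (hI : ∫ x, liminf (fun n => u n x) atTop ∂μ = 1) {δ : ℝ} (hδ : 0 < δ) :
    ∃ n0 : ℕ, ∀ N ≥ n0, μ.real {x | ¬ (1 / 2 ≤ u N x)} ≤ δ := by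
  have hae := ae_liminf_eq_one h0 h1 hI
  have hA : ∀ n, MeasurableSet {x | ¬ (1 / 2 ≤ u n x)} := fun n =>
    (measurableSet_le measurable_const (hm n)).compl
  set B : ℕ → Set Ω := fun n => ⋃ m ≥ n, {x | ¬ (1 / 2 ≤ u m x)} with hB
  have hBm : ∀ n, MeasurableSet (B n) := fun n =>
    MeasurableSet.iUnion fun m => MeasurableSet.iUnion fun _ => hA m
  have hanti : Antitone B := by
    intro a b hab x hx
    simp only [hB, Set.mem_iUnion] at hx ⊢
    obtain ⟨m, hm1, hm2⟩ := hx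
    exact ⟨m, le_trans hab hm1, hm2⟩
  have hnull : μ (⋂ n, B n) = 0 := by
    rw [measure_eq_zero_iff_ae_notMem]
    filter_upwards [hae] with x hx hcon
    have hb : IsBoundedUnder (· ≥ ·) atTop fun n => u n x :=
      isBoundedUnder_of ⟨0, fun n => h0 n x⟩
    have hev := eventually_lt_of_lt_liminf (f := atTop) (u := fun n => u n x) (b := 1 / 2)
      (by rw [hx]; norm_num) hb
    rw [eventually_atTop] at hev
    obtain ⟨n, hn⟩ := hev
    have h5 := Set.mem_iInter.1 hcon n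
    simp only [hB, Set.mem_iUnion] at h5
    obtain ⟨m, hm1, hm2⟩ := h5
    exact hm2 (hn m hm1).le
  have ht := tendsto_measure_iInter_atTop (μ := μ) (fun n => (hBm n).nullMeasurableSet) hanti
    ⟨0, measure_ne_top _ _⟩
  rw [hnull] at ht
  have hev := ht.eventually (gt_mem_nhds (ENNReal.ofReal_pos.2 hδ))
  rw [eventually_atTop] at hev
  obtain ⟨n0, hn0⟩ := hev
  refine ⟨n0, fun N hN => ?_⟩
  have hsub : {x | ¬ (1 / 2 ≤ u N x)} ⊆ B n0 := by
    intro x hx
    simp only [hB, Set.mem_iUnion]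
    exact ⟨N, hN, hx⟩
  have h6 : μ {x | ¬ (1 / 2 ≤ u N x)} ≤ ENNReal.ofReal δ :=
    (measure_mono hsub).trans (hn0 n0 le_rfl).le
  rw [measureReal_def]
  exact ENNReal.toReal_le_of_le_ofReal hδ.le h6

theorem exists_n0 {Ω : Type*} [MeasurableSpace Ω] {μ : Measure Ω} [IsProbabilityMeasure μ] {d : ℕ}
    (ω : ℕ × Site d → Ω → ℝ) (hmeas : ∀ p, Measurable (ω p)) {β a : ℝ} (ha : a ∈ nuSet μ β ω)
    {δ : ℝ} (hδ : 0 < δ) : ∃ n0 : ℕ, ∀ N ≥ n0,
      μ.real {x | ¬ (1 / 2 ≤ Pol β (fun p => ω p x) N (inBall d N ((N : ℝ) ^ a)))} ≤ δ := by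
  refine exists_bad_small (u := fun n x => Pol β (fun p => ω p x) n (inBall d n ((n : ℝ) ^ a)))
    (fun n => ?_) (fun n x => Pol_nonneg _ _ _ _) (fun n x => Pol_le_one _ _ _ _) ha.2 hδ
  exact (measurable_Pol β n _).comp (measurable_pi_iff.2 hmeas)

theorem nrm_vec {d : ℕ} (e : Step d) : nrm (vec e) = 1 := by
  unfold nrm vec
  rw [Finset.sum_eq_single e.1]
  · rw [Pi.single_eq_same]
    split_ifs <;> norm_num
  · intro i _ hi
    rw [Pi.single_eq_of_ne hi]
    norm_num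
  · intro h
    exact absurd (Finset.mem_univ _) h

theorem nrm_eq_norm {d : ℕ} (x : Site d) :
    nrm x = ‖(WithLp.toLp 2 (fun i => (x i : ℝ)) : EuclideanSpace ℝ (Fin d))‖ := by
  rw [EuclideanSpace.norm_eq]
  unfold nrm
  congr 1
  refine Finset.sum_congr rfl fun i _ => ?_
  rw [Real.norm_eq_abs, sq_abs]

theorem nrm_zero {d : ℕ} : nrm (0 : Site d) = 0 := by
  unfold nrm
  simp

theorem nrm_add_le {d : ℕ} (x y : Site d) : nrm (x + y) ≤ nrm x + nrm y := by
  rw [nrm_eq_norm, nrm_eq_norm, nrm_eq_norm]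
  have h : (WithLp.toLp 2 (fun i => ((x + y) i : ℝ)) : EuclideanSpace ℝ (Fin d)) =
      WithLp.toLp 2 (fun i => (x i : ℝ)) + WithLp.toLp 2 (fun i => (y i : ℝ)) := by
    ext i
    simp
  rw [h]
  exact norm_add_le _ _

theorem nrm_sum_le {d : ℕ} {ι : Type*} (s : Finset ι) (f : ι → Site d) :
    nrm (∑ i ∈ s, f i) ≤ ∑ i ∈ s, nrm (f i) := by
  classical
  induction s using Finset.induction_on with
  | empty => simp [nrm_zero]
  | insert a s ha ih =>
    rw [Finset.sum_insert ha, Finset.sum_insert ha]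
    exact (nrm_add_le _ _).trans (by linarith)

theorem nrm_pos_le {d n : ℕ} (s : Fin n → Step d) (i : ℕ) : nrm (pos s i) ≤ n := by
  unfold pos
  refine (nrm_sum_le _ _).trans ?_
  have h : ∀ j : Fin n, nrm (if (j : ℕ) < i then vec (s j) else 0) ≤ 1 := by
    intro j
    split_ifs
    · rw [nrm_vec]
    · rw [nrm_zero]
      exact zero_le_one
  refine (Finset.sum_le_sum fun j _ => h j).trans ?_
  simp

theorem inBall_univ {d n : ℕ} : inBall d n ((n : ℝ) ^ (1 : ℝ)) = Set.univ := by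
  rw [Set.eq_univ_iff_forall]
  intro s i _
  rw [Real.rpow_one]
  exact nrm_pos_le s i

theorem Pol_univ {d : ℕ} (hd : 0 < d) (β : ℝ) (η : ℕ × Site d → ℝ) (n : ℕ) :
    Pol β η n Set.univ = 1 := by
  rw [Pol_eq]
  exact div_self (ZE_univ_pos hd β η n).ne'

theorem nuSet_nonempty {Ω : Type*} [MeasurableSpace Ω] (μ : Measure Ω) [IsProbabilityMeasure μ]
    {d : ℕ} (hd : 0 < d) (ω : ℕ × Site d → Ω → ℝ) (β : ℝ) : (nuSet μ β ω).Nonempty := by
  refine ⟨1, zero_lt_one, ?_⟩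
  have h : ∀ x : Ω, liminf (fun n : ℕ => Pol β (fun p => ω p x) n
      (inBall d n ((n : ℝ) ^ (1 : ℝ)))) atTop = 1 := by
    intro x
    simp only [inBall_univ, Pol_univ hd]
    exact liminf_const _
  simp only [h]
  rw [integral_const]
  simp

end Pool.Agent.W_MP_7d29a1_pr
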