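import Pool.Agent.W_MP_7d29a1_pr.Quant
import Pool.Agent.W_MP_7d29a1_pr.Liminf

/-!
The lower bound `1 / (d + 2)` for the wandering exponent.
-/

namespace Pool.Agent.W_MP_7d29a1_pr

open MeasureTheory ProbabilityTheory Filter Topology

theorem numeric (d : ℕ) {a c C : ℝ} (ha : 0 < a) (had : a * ((d : ℝ) + 2) < 1)
    (hc : 0 < c) (n0 : ℕ)
    (h : ∀ n r : ℕ, n0 ≤ n → 1 ≤ n → r = ⌈(2 * (n : ℝ)) ^ a⌉₊ → 2 * r + 1 ≤ n →
      c * Real.sqrt n ≤ Real.sqrt ((2 * (r : ℝ) + 1) ^ d) * ((2 * (r : ℝ) + 1) * C)) : False := by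
  have ha1 : a < 1 := by
    have : (0 : ℝ) ≤ d := Nat.cast_nonneg d
    nlinarith
  have hx : Tendsto (fun n : ℕ => 2 * (n : ℝ)) atTop atTop :=
    tendsto_natCast_atTop_atTop.const_mul_atTop two_pos
  have t1 := (tendsto_rpow_atTop (show 0 < 1 - a * ((d : ℝ) + 2) by linarith)).comp hx
  have t2 := (tendsto_rpow_atTop (show 0 < 1 - a by linarith)).comp hx
  set T : ℝ := 2 * (C ^ 2 * 5 ^ (d + 2)) / c ^ 2 with hT
  obtain ⟨n, ⟨h1, h2⟩, h3, h4⟩ := (((t1.eventually_gt_atTop T).and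
    (t2.eventually_ge_atTop 10)).and ((eventually_ge_atTop n0).and
      (eventually_ge_atTop 1))).exists
  simp only [Function.comp_apply] at h1 h2
  set x : ℝ := 2 * (n : ℝ) with hxdef
  have hn1 : (1 : ℝ) ≤ n := by exact_mod_cast h4
  have hx2 : 2 ≤ x := by rw [hxdef]; linarith
  have hx0 : 0 < x := by linarith
  have hxa : 1 ≤ x ^ a := Real.one_le_rpow (by linarith) ha.le
  set r : ℕ := ⌈x ^ a⌉₊ with hr
  have hr1 : (r : ℝ) < x ^ a + 1 := Nat.ceil_lt_add_one (by linarith)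
  have hk5 : 2 * (r : ℝ) + 1 ≤ 5 * x ^ a := by linarith
  have h5 : 5 * x ^ a ≤ n := by
    have e1 : x ^ (1 - a) * x ^ a = x := by
      rw [← Real.rpow_add hx0]
      simp
    nlinarith
  have hkn : 2 * r + 1 ≤ n := by
    have : ((2 * r + 1 : ℕ) : ℝ) ≤ n := by
      push_cast
      linarith
    exact_mod_cast this
  have h6 := h n r h3 h4 rfl hkn
  set k : ℝ := 2 * (r : ℝ) + 1 with hk
  have hk0 : 0 ≤ k := by positivity
  have h7 : c ^ 2 * n ≤ C ^ 2 * k ^ (d + 2) := by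
    have h8 := pow_le_pow_left₀ (by positivity) h6 2
    rw [mul_pow, mul_pow, mul_pow, Real.sq_sqrt (by positivity), Real.sq_sqrt (by positivity)] at h8
    calc c ^ 2 * n ≤ k ^ d * (k ^ 2 * C ^ 2) := h8
      _ = C ^ 2 * k ^ (d + 2) := by ring
  have h8 : k ^ (d + 2) ≤ 5 ^ (d + 2) * x ^ (a * ((d : ℝ) + 2)) := by
    calc k ^ (d + 2) ≤ (5 * x ^ a) ^ (d + 2) := pow_le_pow_left₀ hk0 hk5 _
      _ = 5 ^ (d + 2) * (x ^ a) ^ (d + 2) := mul_pow _ _ _
      _ = 5 ^ (d + 2) * x ^ (a * ((d : ℝ) + 2)) := by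
          rw [Real.rpow_mul hx0.le, ← Real.rpow_natCast (x ^ a) (d + 2)]
          push_cast
          rfl
  have h9 : x ^ (1 - a * ((d : ℝ) + 2)) * x ^ (a * ((d : ℝ) + 2)) = x := by
    rw [← Real.rpow_add hx0]
    simp
  have hy : 0 < x ^ (a * ((d : ℝ) + 2)) := Real.rpow_pos_of_pos hx0 _
  have h10 : T * x ^ (a * ((d : ℝ) + 2)) < x := by
    calc T * x ^ (a * ((d : ℝ) + 2)) < x ^ (1 - a * ((d : ℝ) + 2)) * x ^ (a * ((d : ℝ) + 2)) :=
          mul_lt_mul_of_pos_right h1 hy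
      _ = x := h9
  have h11 : c ^ 2 * (T * x ^ (a * ((d : ℝ) + 2))) < c ^ 2 * x :=
    mul_lt_mul_of_pos_left h10 (by positivity)
  have h12 : c ^ 2 * (T * x ^ (a * ((d : ℝ) + 2))) =
      2 * (C ^ 2 * (5 ^ (d + 2) * x ^ (a * ((d : ℝ) + 2)))) := by
    rw [hT]
    field_simp
  have h13 : C ^ 2 * k ^ (d + 2) ≤ C ^ 2 * (5 ^ (d + 2) * x ^ (a * ((d : ℝ) + 2))) :=
    mul_le_mul_of_nonneg_left h8 (sq_nonneg _)
  have h14 : c ^ 2 * x = 2 * (c ^ 2 * n) := by rw [hxdef]; ring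
  linarith

theorem key {d : ℕ} (hd : 0 < d) {Ω : Type*} [MeasurableSpace Ω] (μ : Measure Ω)
    [IsProbabilityMeasure μ] (ρ : Measure ℝ) [IsProbabilityMeasure ρ] (ω : ℕ × Site d → Ω → ℝ)
    (hω : IID μ ρ ω) (hnc : ∀ c : ℝ, ρ {c} ≠ 1)
    (hexp : ∀ β : ℝ, Integrable (fun t => Real.exp (β * t)) ρ) {β : ℝ} (hβ : 0 < β) {a : ℝ}
    (ha : a ∈ nuSet μ β ω) : 1 / ((d : ℝ) + 2) ≤ a := by
  by_contra hcon
  push Not at hcon
  have ha0 : 0 < a := ha.1
  have hd2 : (0 : ℝ) < (d : ℝ) + 2 := by positivity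
  have had : a * ((d : ℝ) + 2) < 1 := (lt_div_iff₀ hd2).1 hcon
  obtain ⟨ε₀, hε₀, c, hc, hf⟩ := fluct_box d ρ hnc β hβ (hexp β)
  set ε : ℝ := min (ε₀ / 2) (1 / 4) with hεdef
  have hε : 0 < ε := lt_min (by positivity) (by norm_num)
  have hε4 : ε ≤ 1 / 4 := min_le_right _ _
  have hε2 : 2 * ε ≤ ε₀ := by
    have := min_le_left (ε₀ / 2) (1 / 4)
    linarith
  set B : ℝ := ∫ t, |t| ∂ρ with hB
  have habs := integrable_abs_of_exp hexp
  have hB0 : 0 ≤ B := integral_nonneg fun t => abs_nonneg t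
  set δ : ℝ := ε ^ 2 / 4 with hδdef
  have hδ : 0 < δ := by positivity
  have hδ2 : 2 * δ < ε ^ 2 := by rw [hδdef]; nlinarith
  have hδ1 : 2 * δ < ε := by nlinarith
  obtain ⟨n0, hn0⟩ := exists_n0 ω hω.meas ha hδ
  set Kc : ℝ := B / δ + 1 with hKc
  have hKc0 : 0 < Kc := by positivity
  have hKk : ∀ k : ℕ, 1 ≤ k → μ.real {x | ∑ i ∈ Finset.range k, ω (i + 1, (i + 1) • e1 hd) x <
      -((k : ℝ) * Kc)} ≤ δ := by
    intro k hk
    have h1 := hω.straight habs hd k ((k : ℝ) * Kc)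
    have hk1 : (1 : ℝ) ≤ k := by exact_mod_cast hk
    have hkK : 0 < (k : ℝ) * Kc := by positivity
    have h2 : (k : ℝ) * B ≤ (k : ℝ) * Kc * δ := by
      rw [hKc]
      have : (k : ℝ) * (B / δ + 1) * δ = k * B + k * δ := by field_simp
      rw [this]
      have : 0 ≤ (k : ℝ) * δ := by positivity
      linarith
    exact le_of_mul_le_mul_left (h1.trans h2) hkK
  set Lg : ℝ := Real.log (2 * d * ∫ t, Real.exp (β * t) ∂ρ) with hLg
  have hlog1 : 0 ≤ -Real.log (1 - ε) := by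
    have := Real.log_nonpos (show 0 ≤ 1 - ε by linarith) (by linarith)
    linarith
  have hlog2 : 0 ≤ Real.log 2 := Real.log_nonneg (by norm_num)
  set C5 : ℝ := 2 * |Lg| - Real.log (1 - ε) + β * Kc + Real.log 2 with hC5
  have hC50 : 0 ≤ C5 := by
    have := abs_nonneg Lg
    have : 0 ≤ β * Kc := by positivity
    linarith
  refine numeric d ha0 had hc (C := 2 * C5 + β * Kc + Real.log 2) n0 ?_
  intro n r hn hn1 hr hkn
  set k : ℕ := 2 * r + 1 with hk
  have hn1' : (1 : ℝ) ≤ n := by exact_mod_cast hn1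
  have hk1 : (1 : ℝ) ≤ k := by exact_mod_cast (show 1 ≤ k by omega)
  have hkr : (k : ℝ) = 2 * (r : ℝ) + 1 := by rw [hk]; push_cast; ring
  have hR : ∀ N : ℕ, N ≤ 2 * n → (N : ℝ) ^ a ≤ r := by
    intro N hN
    have hN' : (N : ℝ) ≤ 2 * n := by exact_mod_cast hN
    calc (N : ℝ) ^ a ≤ (2 * (n : ℝ)) ^ a := Real.rpow_le_rpow (Nat.cast_nonneg _) hN' ha0.le
      _ ≤ r := by rw [hr]; exact Nat.le_ceil _
  have hPol : ∀ N : ℕ, n ≤ N → μ.real {x | ¬ (1 / 2 ≤ Pol β (fun p => ω p x) N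
      (inBall d N ((N : ℝ) ^ a)))} ≤ δ := fun N hN => hn0 N (hn.trans hN)
  have hne : ∀ N : ℕ, n ≤ N → N ≤ 2 * n → (good d N r).Nonempty := by
    intro N hN hN2
    have hex : ∃ x, 1 / 2 ≤ Pol β (fun p => ω p x) N (inBall d N ((N : ℝ) ^ a)) := by
      by_contra hno
      push Not at hno
      have h1 : {x | ¬ (1 / 2 ≤ Pol β (fun p => ω p x) N (inBall d N ((N : ℝ) ^ a)))} =
          Set.univ := by
        ext x
        simp only [Set.mem_univ, iff_true]
        exact not_le.2 (hno x)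
      have h2 := hPol N hN
      rw [h1, probReal_univ] at h2
      nlinarith
    obtain ⟨x, hx⟩ := hex
    exact good_nonempty_of_Pol hd (hR N hN2) hx
  have hXm : ∀ m : ℕ, Measurable fun x => XF β m r (fun p => ω p x) := fun m =>
    (measurable_XF β m r).comp hω.measurable_field
  have hε1 : ε < 1 := by linarith
  choose αf hα1 hα2 using fun m : ℕ => exists_lower_quantile μ (hXm m) hε hε1
  choose γf hγ1 hγ2 using fun m : ℕ => exists_upper_quantile μ (hXm m) hε hε1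
  set Kd : ℝ := Real.sqrt ((k : ℝ) ^ d) with hKd
  have hKd0 : 0 < Kd := Real.sqrt_pos.2 (by positivity)
  have fact1 : ∀ m : ℕ, n ≤ m → m ≤ 2 * n → c * Real.sqrt n / Kd ≤ γf m - αf m := by
    intro m hm hm2
    have hm1 : (1 : ℝ) ≤ m := by exact_mod_cast hn1.trans hm
    have hbad : μ {x | XF β m r (fun p => ω p x) ∉ Set.Icc (αf m) (γf m)} ≤
        ENNReal.ofReal ε₀ := by
      rw [ENNReal.le_ofReal_iff_toReal_le (measure_ne_top _ _) hε₀.le]
      have hsub : {x | XF β m r (fun p => ω p x) ∉ Set.Icc (αf m) (γf m)} ⊆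
          {x | XF β m r (fun p => ω p x) < αf m} ∪ {x | γf m < XF β m r (fun p => ω p x)} := by
        intro x hx
        have hx : ¬ (αf m ≤ XF β m r (fun p => ω p x) ∧ XF β m r (fun p => ω p x) ≤ γf m) := hx
        rw [not_and_or, not_le, not_le] at hx
        exact hx
      have h1 := (measureReal_mono (μ := μ) hsub).trans (measureReal_union_le _ _)
      have h2 := hα1 m
      have h3 := hγ1 m
      change μ.real _ ≤ ε₀
      linarith
    have h1 := hω.fluct_of hf (hne m hm hm2) (αf m) (γf m) hbad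
    rw [← hkr, Real.sqrt_mul (Nat.cast_nonneg m)] at h1
    have hsm : 0 < Real.sqrt m := Real.sqrt_pos.2 (by linarith)
    have h2 : Real.sqrt m * Real.sqrt m = m := Real.mul_self_sqrt (by linarith)
    have h3 : Real.sqrt m * (c * Real.sqrt m) ≤ Real.sqrt m * ((γf m - αf m) * Kd) := by
      calc Real.sqrt m * (c * Real.sqrt m) = c * (Real.sqrt m * Real.sqrt m) := by ring
        _ = c * m := by rw [h2]
        _ ≤ (γf m - αf m) * (Real.sqrt m * Real.sqrt ((k : ℝ) ^ d)) := h1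
        _ = _ := by rw [hKd]; ring
    have h4 := le_of_mul_le_mul_left h3 hsm
    rw [div_le_iff₀ hKd0]
    have h5 : Real.sqrt n ≤ Real.sqrt m := Real.sqrt_le_sqrt (by exact_mod_cast hm)
    calc c * Real.sqrt n ≤ c * Real.sqrt m := mul_le_mul_of_nonneg_left h5 hc.le
      _ ≤ _ := h4
  have fact2 : ∀ m : ℕ, n ≤ m → k + m ≤ 2 * n →
      γf m - β * ((k : ℝ) * Kc) - Real.log 2 ≤ αf (k + m) := by
    intro m hm hm2
    exact hω.step hd hβ (by omega) (hne m hm (by omega)) (hR (k + m) hm2) hε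
      (hPol (k + m) (by omega)) (hKk k (by omega)) hδ2 (hα2 (k + m)) (hγ2 m)
  have fact3 : - β * ((n : ℝ) * Kc) - Real.log 2 ≤ αf n :=
    IID.base (ω := ω) hd hβ (hR n (by omega)) (hPol n le_rfl) (hKk n hn1) hδ1 (hα2 n)
  have fact4 : ∀ m : ℕ, n ≤ m → m ≤ 2 * n → αf m ≤ m * Lg - Real.log (1 - ε) :=
    fun m hm hm2 => hω.upper_quantile_bound hd (hexp β) (hne m hm hm2) hε1 (hα1 m)
  set D : ℝ := c * Real.sqrt n / Kd - β * ((k : ℝ) * Kc) - Real.log 2 with hD
  have hind : ∀ j : ℕ, n + j * k ≤ 2 * n → αf n + j * D ≤ αf (n + j * k) := by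
    intro j
    induction j with
    | zero => intro _; simp
    | succ j ih =>
      intro hj
      have e1 : n + (j + 1) * k = k + (n + j * k) := by ring
      rw [e1] at hj ⊢
      have h1 := ih (by omega)
      have h2 := fact2 (n + j * k) (by omega) hj
      have h3 := fact1 (n + j * k) (by omega) (by omega)
      push_cast
      rw [hD] at h1 ⊢
      linarith
  set J : ℕ := n / k with hJ
  have hJk : J * k ≤ n := Nat.div_mul_le_self n k
  have h1 := hind J (by omega)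
  have h2 := fact4 (n + J * k) (by omega) (by omega)
  have hnJ : ((n + J * k : ℕ) : ℝ) ≤ 2 * n := by exact_mod_cast (show n + J * k ≤ 2 * n by omega)
  have h3 : ((n + J * k : ℕ) : ℝ) * Lg ≤ 2 * n * |Lg| := by
    calc ((n + J * k : ℕ) : ℝ) * Lg ≤ ((n + J * k : ℕ) : ℝ) * |Lg| :=
          mul_le_mul_of_nonneg_left (le_abs_self _) (Nat.cast_nonneg _)
      _ ≤ 2 * n * |Lg| := mul_le_mul_of_nonneg_right hnJ (abs_nonneg _)
  have h4 : (J : ℝ) * D ≤ C5 * n := by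
    have e1 : -Real.log (1 - ε) ≤ -Real.log (1 - ε) * n := le_mul_of_one_le_right hlog1 hn1'
    have e2 : Real.log 2 ≤ Real.log 2 * n := le_mul_of_one_le_right hlog2 hn1'
    have e3 : C5 * n = 2 * n * |Lg| + -Real.log (1 - ε) * n + β * ((n : ℝ) * Kc) +
        Real.log 2 * n := by
      rw [hC5]
      ring
    rw [e3]
    linarith
  have hn2 : (n : ℝ) ≤ 2 * k * J := by
    have hJ1 : 1 ≤ J := Nat.div_pos hkn (by omega)
    have h5 : n < k * (J + 1) := by
      rw [hJ]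
      exact Nat.lt_mul_div_succ n (by omega)
    have h6 : n ≤ 2 * k * J := by nlinarith
    exact_mod_cast h6
  have hD2 : D ≤ 2 * k * C5 := by
    by_cases hD0 : D ≤ 0
    · have : 0 ≤ 2 * (k : ℝ) * C5 := by positivity
      linarith
    · push Not at hD0
      have h5 : (n : ℝ) * D ≤ n * (2 * k * C5) := by
        calc (n : ℝ) * D ≤ (2 * k * J) * D := mul_le_mul_of_nonneg_right hn2 hD0.le
          _ = 2 * k * (J * D) := by ring
          _ ≤ 2 * k * (C5 * n) := mul_le_mul_of_nonneg_left h4 (by positivity)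
          _ = n * (2 * k * C5) := by ring
      exact le_of_mul_le_mul_left h5 (by linarith)
  have h6 : c * Real.sqrt n / Kd ≤ (k : ℝ) * (2 * C5 + β * Kc + Real.log 2) := by
    have e2 : Real.log 2 ≤ k * Real.log 2 := le_mul_of_one_le_left hlog2 hk1
    have e3 : (k : ℝ) * (2 * C5 + β * Kc + Real.log 2) =
        2 * k * C5 + β * ((k : ℝ) * Kc) + k * Real.log 2 := by ring
    rw [e3]
    rw [hD] at hD2
    linarith
  rw [div_le_iff₀ hKd0] at h6
  rw [← hkr]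
  calc c * Real.sqrt n ≤ (k : ℝ) * (2 * C5 + β * Kc + Real.log 2) * Kd := h6
    _ = _ := by rw [hKd]; ring

end Pool.Agent.W_MP_7d29a1_pr
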