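import Pool.Agent.W_MP_7d29a1_pr.FluctB

/-!
Abstract fluctuation lower bound: paths and the abstract theorem.
-/

set_option linter.unusedSectionVars false

namespace Pool.Agent.W_MP_7d29a1_pr

open MeasureTheory ProbabilityTheory Filter Topology

namespace FL

section glob

variable {V P : Type} [Fintype V] [Fintype P] [DecidableEq V] (β : ℝ) (A : P → Finset V) (w : P → ℝ)

/-- Weight of a path. -/
noncomputable def W (η : V → ℝ) (p : P) : ℝ := w p * Real.exp (β * ∑ s ∈ A p, η s)

/-- The part of the partition function from paths through `s`, with the value at `s` removed. -/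
noncomputable def As (s : V) (η : V → ℝ) : ℝ :=
  ∑ p, if s ∈ A p then w p * Real.exp (β * ∑ x ∈ (A p).erase s, η x) else 0

/-- The part of the partition function from paths avoiding `s`. -/
noncomputable def Rs (s : V) (η : V → ℝ) : ℝ :=
  ∑ p, if s ∈ A p then 0 else w p * Real.exp (β * ∑ x ∈ A p, η x)

/-- The occupation probability of `s`. -/
noncomputable def occ (s : V) (η : V → ℝ) : ℝ :=
  (∑ p, if s ∈ A p then W β A w η p else 0) / ∑ p, W β A w η p

variable {β A w}

theorem W_update_of_mem {s : V} {p : P} (h : s ∈ A p) (η : V → ℝ) (t : ℝ) :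
    W β A w (Function.update η s t) p =
      w p * Real.exp (β * ∑ x ∈ (A p).erase s, η x) * Real.exp (β * t) := by
  unfold W
  rw [← Finset.add_sum_erase _ _ h, Function.update_self, mul_assoc, ← Real.exp_add]
  congr 2
  have : ∑ x ∈ (A p).erase s, Function.update η s t x = ∑ x ∈ (A p).erase s, η x := by
    refine Finset.sum_congr rfl fun x hx => ?_
    rw [Function.update_of_ne (Finset.ne_of_mem_erase hx)]
  rw [this]
  ring

theorem W_update_of_not_mem {s : V} {p : P} (h : s ∉ A p) (η : V → ℝ) (t : ℝ) :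
    W β A w (Function.update η s t) p = w p * Real.exp (β * ∑ x ∈ A p, η x) := by
  unfold W
  congr 3
  refine Finset.sum_congr rfl fun x hx => ?_
  rw [Function.update_of_ne]
  rintro rfl
  exact h hx

theorem sum_W_update (s : V) (η : V → ℝ) (t : ℝ) :
    ∑ p, W β A w (Function.update η s t) p =
      As β A w s η * Real.exp (β * t) + Rs β A w s η := by
  unfold As Rs
  rw [Finset.sum_mul, ← Finset.sum_add_distrib]
  refine Finset.sum_congr rfl fun p _ => ?_
  by_cases h : s ∈ A p
  · rw [W_update_of_mem h, if_pos h, if_pos h, add_zero]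
  · rw [W_update_of_not_mem h, if_neg h, if_neg h, zero_mul, zero_add]

theorem sum_W_mem_update (s : V) (η : V → ℝ) (t : ℝ) :
    (∑ p, if s ∈ A p then W β A w (Function.update η s t) p else 0) =
      As β A w s η * Real.exp (β * t) := by
  unfold As
  rw [Finset.sum_mul]
  refine Finset.sum_congr rfl fun p _ => ?_
  by_cases h : s ∈ A p
  · rw [W_update_of_mem h, if_pos h, if_pos h]
  · rw [if_neg h, if_neg h, zero_mul]

theorem occ_update (s : V) (η : V → ℝ) (t : ℝ) :
    occ β A w s (Function.update η s t) = ff β (As β A w s η) (Rs β A w s η) t := by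
  unfold occ ff
  rw [sum_W_mem_update, sum_W_update]

variable (hw : ∀ p, 0 < w p)
include hw

theorem W_pos (η : V → ℝ) (p : P) : 0 < W β A w η p := mul_pos (hw p) (Real.exp_pos _)

theorem As_nonneg (s : V) (η : V → ℝ) : 0 ≤ As β A w s η := by
  refine Finset.sum_nonneg fun p _ => ?_
  split_ifs
  · exact (mul_pos (hw p) (Real.exp_pos _)).le
  · exact le_rfl

theorem Rs_nonneg (s : V) (η : V → ℝ) : 0 ≤ Rs β A w s η := by
  refine Finset.sum_nonneg fun p _ => ?_
  split_ifs
  · exact le_rfl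
  · exact (mul_pos (hw p) (Real.exp_pos _)).le

theorem As_add_Rs_pos [Nonempty P] (s : V) (η : V → ℝ) : 0 < As β A w s η + Rs β A w s η := by
  have h := sum_W_update (β := β) (A := A) (w := w) s η 0
  rw [mul_zero, Real.exp_zero, mul_one] at h
  rw [← h]
  exact Finset.sum_pos (fun p _ => W_pos hw _ p) Finset.univ_nonempty

theorem occ_nonneg (s : V) (η : V → ℝ) : 0 ≤ occ β A w s η := by
  unfold occ
  apply div_nonneg
  · refine Finset.sum_nonneg fun p _ => ?_
    split_ifs
    · exact (W_pos hw _ p).le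
    · exact le_rfl
  · exact Finset.sum_nonneg fun p _ => (W_pos hw _ p).le

theorem occ_le_one (s : V) (η : V → ℝ) : occ β A w s η ≤ 1 := by
  unfold occ
  apply div_le_one_of_le₀
  · refine Finset.sum_le_sum fun p _ => ?_
    split_ifs
    · exact le_rfl
    · exact (W_pos hw _ p).le
  · exact Finset.sum_nonneg fun p _ => (W_pos hw _ p).le

theorem sum_occ [Nonempty P] {N : ℕ} (hN : ∀ p, (A p).card = N) (η : V → ℝ) :
    ∑ s, occ β A w s η = N := by
  unfold occ
  rw [← Finset.sum_div, Finset.sum_comm]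
  have h1 : ∀ p, (∑ s, if s ∈ A p then W β A w η p else 0) = N * W β A w η p := by
    intro p
    rw [← Finset.sum_filter, Finset.sum_const, nsmul_eq_mul, Finset.filter_univ_mem, hN]
  simp only [h1]
  rw [← Finset.mul_sum, mul_div_assoc, div_self, mul_one]
  exact (Finset.sum_pos (fun p _ => W_pos hw _ p) Finset.univ_nonempty).ne'

end glob

theorem measurable_sumW {V P : Type} [Fintype V] [Fintype P] (β : ℝ) (A : P → Finset V)
    (w : P → ℝ) : Measurable fun η : V → ℝ => ∑ p, W β A w η p := by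
  unfold W
  fun_prop

theorem measurable_occ {V P : Type} [Fintype V] [Fintype P] [DecidableEq V] (β : ℝ)
    (A : P → Finset V) (w : P → ℝ) (s : V) : Measurable (occ β A w s) := by
  unfold occ
  refine Measurable.div ?_ (measurable_sumW β A w)
  refine Finset.measurable_sum _ fun p _ => ?_
  by_cases h : s ∈ A p
  · simp only [if_pos h]
    unfold W
    fun_prop
  · simp only [if_neg h]
    exact measurable_const

/-- The one-site function. -/
noncomputable def Hs {V P : Type} [Fintype V] [Fintype P] [DecidableEq V] (β : ℝ)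
    (A : P → Finset V) (w : P → ℝ) (a b r κ K α γ : ℝ) (s : V) (η : V → ℝ) : ℝ :=
  gf b a r (η s) * cl α γ (Real.log (∑ p, W β A w η p)) - β * a * κ * occ β A w s η +
    β * a * K * (occ β A w s η * bad α γ (Real.log (∑ p, W β A w η p)))

theorem measurable_Hs {V P : Type} [Fintype V] [Fintype P] [DecidableEq V] (β : ℝ)
    (A : P → Finset V) (w : P → ℝ) (a b r κ K α γ : ℝ) (s : V) :
    Measurable (Hs β A w a b r κ K α γ s) := by
  unfold Hs
  have hX : Measurable fun η : V → ℝ => Real.log (∑ p, W β A w η p) :=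
    Real.measurable_log.comp (measurable_sumW β A w)
  exact ((((measurable_gf b a r).comp (measurable_pi_apply s)).mul
    ((measurable_cl α γ).comp hX)).sub ((measurable_occ β A w s).const_mul _)).add
    (((measurable_occ β A w s).mul ((measurable_bad α γ).comp hX)).const_mul _)

theorem abs_Hs_le {V P : Type} [Fintype V] [Fintype P] [DecidableEq V] {β : ℝ} (hβ : 0 < β)
    (A : P → Finset V) {w : P → ℝ} (hw : ∀ p, 0 < w p) {a b r κ K α γ : ℝ} (ha : 0 < a)
    (hr : 0 ≤ r) (hκ : 0 ≤ κ) (hK : 0 ≤ K) (hαγ : α ≤ γ) (s : V) (η : V → ℝ) :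
    |Hs β A w a b r κ K α γ s η| ≤ (1 + r) * (|α| + |γ|) + β * a * κ + β * a * K := by
  unfold Hs
  set X := Real.log (∑ p, W β A w η p)
  have h1 : |gf b a r (η s) * cl α γ X| ≤ (1 + r) * (|α| + |γ|) := by
    rw [abs_mul]
    exact mul_le_mul (abs_gf_le b a hr _) (abs_cl_le hαγ _) (abs_nonneg _) (by positivity)
  have hf0 := occ_nonneg (β := β) (A := A) hw s η
  have hf1 := occ_le_one (β := β) (A := A) hw s η
  have hb0 := bad_nonneg α γ X
  have hb1 := bad_le_one α γ X
  have h2 : |β * a * κ * occ β A w s η| ≤ β * a * κ := by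
    rw [abs_of_nonneg (by positivity)]
    exact mul_le_of_le_one_right (by positivity) hf1
  have h3 : |β * a * K * (occ β A w s η * bad α γ X)| ≤ β * a * K := by
    rw [abs_of_nonneg (by positivity)]
    exact mul_le_of_le_one_right (by positivity) (mul_le_one₀ hf1 hb0 hb1)
  calc _ ≤ |gf b a r (η s) * cl α γ X - β * a * κ * occ β A w s η| +
        |β * a * K * (occ β A w s η * bad α γ X)| := abs_add_le _ _
    _ ≤ |gf b a r (η s) * cl α γ X| + |β * a * κ * occ β A w s η| +
        |β * a * K * (occ β A w s η * bad α γ X)| := by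
        gcongr
        exact abs_sub _ _
    _ ≤ _ := by gcongr

theorem integral_Hs_nonneg {V P : Type} [Fintype V] [Fintype P] [Nonempty P] [DecidableEq V]
    (ρ : Measure ℝ) [IsProbabilityMeasure ρ] {β : ℝ} (hβ : 0 < β)
    (hexp : Integrable (fun t => Real.exp (β * t)) ρ) (A : P → Finset V) {w : P → ℝ}
    (hw : ∀ p, 0 < w p) {a b p q M1 M2 κ K : ℝ} (ha : 0 < a)
    (hpd : p = ρ.real (Set.Iic b)) (hqd : q = ρ.real (Set.Ici (b + a))) (hp : 0 < p) (hq : 0 < q)
    (hM1 : M1 = ∫ t in Set.Iic b, Real.exp (β * (t - b)) ∂ρ)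
    (hM2 : M2 = ∫ t in Set.Ioi b, Real.exp (β * (t - b)) ∂ρ)
    (hM1p : 0 < M1) (hM2p : 0 ≤ M2)
    (hκ : κ = M1 / (M1 + M2)) (hK : K = 1 + p / q) {α γ : ℝ} (hαγ : α ≤ γ) (s : V) :
    0 ≤ ∫ η, Hs β A w a b (p / q) κ K α γ s η ∂(Measure.pi fun _ : V => ρ) := by
  have hκ0 : 0 ≤ κ := by rw [hκ]; positivity
  have hK0 : 0 ≤ K := by rw [hK]; positivity
  have hpq : 0 ≤ p / q := by positivity
  have hmp := measurePreserving_update ρ s
  rw [← hmp.map_eq, integral_map hmp.measurable.aemeasurable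
    (measurable_Hs β A w a b (p / q) κ K α γ s).aestronglyMeasurable, integral_prod]
  · refine integral_nonneg fun η => ?_
    have h := site_integral ρ hβ hexp ha hpd hqd hp hq hM1 hM2 hM1p hM2p hκ hK
      (As_nonneg (β := β) (A := A) hw s η) (Rs_nonneg (β := β) (A := A) hw s η)
      (As_add_Rs_pos (β := β) (A := A) hw s η) hαγ
    change 0 ≤ ∫ t, Hs β A w a b (p / q) κ K α γ s (Function.update η s t) ∂ρ
    refine h.trans (le_of_eq ?_)
    refine integral_congr_ae (Filter.Eventually.of_forall fun t => ?_)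
    simp only [Hs, occ_update, sum_W_update, Function.update_self]
    rfl
  · refine Integrable.of_bound (C := (1 + p / q) * (|α| + |γ|) + β * a * κ + β * a * K)
      ((measurable_Hs β A w a b (p / q) κ K α γ s).comp hmp.measurable).aestronglyMeasurable
      (Filter.Eventually.of_forall fun x => ?_)
    rw [Real.norm_eq_abs]
    exact abs_Hs_le hβ A hw ha hpq hκ0 hK0 hαγ s _

theorem integral_coord {V : Type} [Fintype V] (ρ : Measure ℝ) [IsProbabilityMeasure ρ]
    (g : ℝ → ℝ) (hg : Measurable g) (s : V) :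
    ∫ η, g (η s) ∂(Measure.pi fun _ : V => ρ) = ∫ t, g t ∂ρ := by
  have hmp := measurePreserving_eval (fun _ : V => ρ) s
  have h := integral_map (μ := Measure.pi fun _ : V => ρ) hmp.measurable.aemeasurable
    (f := g) hg.aestronglyMeasurable
  rw [hmp.map_eq] at h
  exact h.symm

theorem integrable_coord {V : Type} [Fintype V] (ρ : Measure ℝ) [IsProbabilityMeasure ρ]
    (g : ℝ → ℝ) (hg : Measurable g) {K : ℝ} (hK : ∀ t, |g t| ≤ K) (s : V) :
    Integrable (fun η : V → ℝ => g (η s)) (Measure.pi fun _ : V => ρ) :=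
  Integrable.of_bound (hg.comp (measurable_pi_apply s)).aestronglyMeasurable K
    (Filter.Eventually.of_forall fun t => by rw [Real.norm_eq_abs]; exact hK _)

theorem integral_G {V : Type} [Fintype V] (ρ : Measure ℝ) [IsProbabilityMeasure ρ]
    (g : ℝ → ℝ) (hg : Measurable g) {K : ℝ} (hK : ∀ t, |g t| ≤ K) (h0 : ∫ t, g t ∂ρ = 0) :
    ∫ η, (∑ s : V, g (η s)) ∂(Measure.pi fun _ : V => ρ) = 0 := by
  rw [integral_finsetSum _ fun s _ => integrable_coord ρ g hg hK s]
  refine Finset.sum_eq_zero fun s _ => ?_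
  rw [integral_coord ρ g hg s, h0]

theorem integral_G_sq {V : Type} [Fintype V] (ρ : Measure ℝ) [IsProbabilityMeasure ρ]
    (g : ℝ → ℝ) (hg : Measurable g) {K : ℝ} (hK : ∀ t, |g t| ≤ K) (h0 : ∫ t, g t ∂ρ = 0) :
    ∫ η, (∑ s : V, g (η s)) ^ 2 ∂(Measure.pi fun _ : V => ρ) ≤ Fintype.card V * K ^ 2 := by
  have hmem : MemLp g 2 ρ := MemLp.of_bound hg.aestronglyMeasurable K
    (Filter.Eventually.of_forall fun t => by rw [Real.norm_eq_abs]; exact hK t)
  have h1 := variance_sum_pi (ι := V) (μ := fun _ => ρ) (X := fun _ => g) fun _ => hmem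
  have hmeasG : Measurable (∑ s : V, fun η : V → ℝ => g (η s)) := by
    have e : (∑ s : V, fun η : V → ℝ => g (η s)) = fun η => ∑ s, g (η s) := by
      funext η
      simp
    rw [e]
    exact Finset.measurable_sum _ fun s _ => hg.comp (measurable_pi_apply s)
  have hmean : ∫ η, (∑ s : V, fun η : V → ℝ => g (η s)) η ∂(Measure.pi fun _ : V => ρ) = 0 := by
    simp only [Finset.sum_apply]
    exact integral_G ρ g hg hK h0
  rw [variance_of_integral_eq_zero hmeasG.aemeasurable hmean] at h1
  have h2 : Var[g; ρ] ≤ K ^ 2 := by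
    rw [variance_of_integral_eq_zero hg.aemeasurable h0]
    calc ∫ t, g t ^ 2 ∂ρ ≤ ∫ _, K ^ 2 ∂ρ := by
          refine integral_mono (Integrable.of_bound (hg.pow_const 2).aestronglyMeasurable (K ^ 2)
            (Filter.Eventually.of_forall fun t => ?_)) (integrable_const _) fun t => ?_
          · rw [Real.norm_eq_abs, abs_pow]
            exact pow_le_pow_left₀ (abs_nonneg _) (hK t) 2
          · simp only
            rw [← sq_abs]
            exact pow_le_pow_left₀ (abs_nonneg _) (hK t) 2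
      _ = K ^ 2 := by simp
  have h3 : ∫ η, (∑ s : V, g (η s)) ^ 2 ∂(Measure.pi fun _ : V => ρ) =
      ∫ η, (∑ s : V, fun η : V → ℝ => g (η s)) η ^ 2 ∂(Measure.pi fun _ : V => ρ) := by
    simp only [Finset.sum_apply]
  rw [h3, h1]
  calc ∑ _ : V, Var[g; ρ] ≤ ∑ _ : V, K ^ 2 := Finset.sum_le_sum fun _ _ => h2
    _ = Fintype.card V * K ^ 2 := by simp

theorem sum_Hs {V P : Type} [Fintype V] [Fintype P] [Nonempty P] [DecidableEq V] {β : ℝ}
    (A : P → Finset V) {w : P → ℝ} (hw : ∀ p, 0 < w p) {N : ℕ} (hN : ∀ p, (A p).card = N)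
    (a b r κ K α γ : ℝ) (η : V → ℝ) :
    ∑ s, Hs β A w a b r κ K α γ s η =
      (∑ s, gf b a r (η s)) * cl α γ (Real.log (∑ p, W β A w η p)) - β * a * κ * N +
        β * a * K * (N * bad α γ (Real.log (∑ p, W β A w η p))) := by
  unfold Hs
  rw [Finset.sum_add_distrib, Finset.sum_sub_distrib, ← Finset.sum_mul, ← Finset.mul_sum,
    ← Finset.mul_sum, ← Finset.sum_mul, sum_occ hw hN]

theorem main_ineq {V P : Type} [Fintype V] [Fintype P] [Nonempty P] [DecidableEq V] [Nonempty V]
    (ρ : Measure ℝ) [IsProbabilityMeasure ρ] {β : ℝ} (hβ : 0 < β)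
    (hexp : Integrable (fun t => Real.exp (β * t)) ρ) (A : P → Finset V) {w : P → ℝ}
    (hw : ∀ p, 0 < w p) {N : ℕ} (hN : ∀ p, (A p).card = N) {a b p q M1 M2 κ K : ℝ} (ha : 0 < a)
    (hpd : p = ρ.real (Set.Iic b)) (hqd : q = ρ.real (Set.Ici (b + a))) (hp : 0 < p) (hq : 0 < q)
    (hM1 : M1 = ∫ t in Set.Iic b, Real.exp (β * (t - b)) ∂ρ)
    (hM2 : M2 = ∫ t in Set.Ioi b, Real.exp (β * (t - b)) ∂ρ)
    (hM1p : 0 < M1) (hM2p : 0 ≤ M2)
    (hκ : κ = M1 / (M1 + M2)) (hK : K = 1 + p / q) {α γ : ℝ} (hαγ : α ≤ γ) {ε : ℝ}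
    (hε : ∫ η, bad α γ (Real.log (∑ p, W β A w η p)) ∂(Measure.pi fun _ : V => ρ) ≤ ε) :
    β * a * κ * N - β * a * K * N * ε ≤ (γ - α) * (K * Real.sqrt (Fintype.card V)) := by
  set μ := Measure.pi fun _ : V => ρ with hμ
  set X : (V → ℝ) → ℝ := fun η => Real.log (∑ p, W β A w η p) with hX
  have hXm : Measurable X := Real.measurable_log.comp (measurable_sumW β A w)
  have hκ0 : 0 ≤ κ := by rw [hκ]; positivity
  have hK0 : 0 < K := by rw [hK]; positivity
  have hpq : 0 ≤ p / q := by positivity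
  set g : ℝ → ℝ := gf b a (p / q) with hg
  have hgm : Measurable g := measurable_gf b a _
  have hgK : ∀ t, |g t| ≤ K := fun t => by rw [hK]; exact abs_gf_le b a hpq t
  have hg0 : ∫ t, g t ∂ρ = 0 := by rw [hg, hpd, hqd]; exact integral_gf ρ b a (hqd ▸ hq)
  set lam : ℝ := K * Real.sqrt (Fintype.card V) with hlam
  have hcard : (0 : ℝ) < Fintype.card V := by exact_mod_cast Fintype.card_pos
  have hlam0 : 0 < lam := mul_pos hK0 (Real.sqrt_pos.2 hcard)
  have hlam2 : lam ^ 2 = Fintype.card V * K ^ 2 := by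
    rw [hlam, mul_pow, Real.sq_sqrt hcard.le]; ring
  have hsum : 0 ≤ ∫ η, ∑ s, Hs β A w a b (p / q) κ K α γ s η ∂μ := by
    rw [integral_finsetSum]
    · exact Finset.sum_nonneg fun s _ => integral_Hs_nonneg ρ hβ hexp A hw ha hpd hqd hp hq hM1 hM2
        hM1p hM2p hκ hK hαγ s
    · intro s _
      exact Integrable.of_bound (measurable_Hs β A w a b (p / q) κ K α γ s).aestronglyMeasurable _
        (Filter.Eventually.of_forall fun η => by
          rw [Real.norm_eq_abs]
          exact abs_Hs_le hβ A hw ha hpq hκ0 hK0.le hαγ s η)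
  have iG : Integrable (fun η : V → ℝ => ∑ s, g (η s)) μ :=
    integrable_finsetSum _ fun s _ => integrable_coord ρ g hgm hgK s
  have hGabs : ∀ η : V → ℝ, |∑ s, g (η s)| ≤ Fintype.card V * K := by
    intro η
    refine (Finset.abs_sum_le_sum_abs _ _).trans ?_
    calc ∑ s, |g (η s)| ≤ ∑ _ : V, K := Finset.sum_le_sum fun s _ => hgK _
      _ = _ := by simp
  have mG : Measurable (fun η : V → ℝ => ∑ s, g (η s)) :=
    Finset.measurable_sum _ fun s _ => hgm.comp (measurable_pi_apply s)
  have iG2 : Integrable (fun η : V → ℝ => (∑ s, g (η s)) ^ 2) μ := by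
    refine Integrable.of_bound (mG.pow_const 2).aestronglyMeasurable
      ((Fintype.card V * K) ^ 2) (Filter.Eventually.of_forall fun η => ?_)
    rw [Real.norm_eq_abs, abs_pow]
    exact pow_le_pow_left₀ (abs_nonneg _) (hGabs η) 2
  have ibad : Integrable (fun η : V → ℝ => bad α γ (X η)) μ := by
    refine Integrable.of_bound ((measurable_bad α γ).comp hXm).aestronglyMeasurable 1
      (Filter.Eventually.of_forall fun η => ?_)
    rw [Real.norm_eq_abs, abs_of_nonneg (bad_nonneg _ _ _)]
    exact bad_le_one _ _ _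
  have hpt : ∀ η, ∑ s, Hs β A w a b (p / q) κ K α γ s η ≤
      (γ - α) / (2 * lam) * (∑ s, g (η s)) ^ 2 + α * (∑ s, g (η s)) +
        β * a * K * N * bad α γ (X η) + ((γ - α) * lam / 2 - β * a * κ * N) := by
    intro η
    rw [sum_Hs A hw hN]
    set G := ∑ s, g (η s) with hG
    have hcl := cl_mem hαγ (X η)
    have h1 : G * (cl α γ (X η) - α) ≤ (γ - α) / (2 * lam) * G ^ 2 + (γ - α) * lam / 2 := by
      have h2 : G * (cl α γ (X η) - α) ≤ |G| * (γ - α) := by
        calc G * (cl α γ (X η) - α) ≤ |G| * (cl α γ (X η) - α) :=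
              mul_le_mul_of_nonneg_right (le_abs_self G) (by linarith [hcl.1])
          _ ≤ |G| * (γ - α) := mul_le_mul_of_nonneg_left (by linarith [hcl.2]) (abs_nonneg G)
      have h3 : |G| ≤ G ^ 2 / (2 * lam) + lam / 2 := by
        have h4 : G ^ 2 / (2 * lam) + lam / 2 - |G| = (|G| - lam) ^ 2 / (2 * lam) := by
          rw [← sq_abs G]
          field_simp
          ring
        have h5 : 0 ≤ (|G| - lam) ^ 2 / (2 * lam) := by positivity
        linarith
      have h6 : |G| * (γ - α) ≤ (G ^ 2 / (2 * lam) + lam / 2) * (γ - α) :=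
        mul_le_mul_of_nonneg_right h3 (by linarith)
      calc _ ≤ |G| * (γ - α) := h2
        _ ≤ _ := h6
        _ = _ := by ring
    change G * cl α γ (X η) - β * a * κ * N + β * a * K * (N * bad α γ (X η)) ≤ _
    nlinarith
  have hint : Integrable (fun η : V → ℝ => (γ - α) / (2 * lam) * (∑ s, g (η s)) ^ 2 +
      α * (∑ s, g (η s)) + β * a * K * N * bad α γ (X η) +
        ((γ - α) * lam / 2 - β * a * κ * N)) μ :=
    (((iG2.const_mul _).add (iG.const_mul _)).add (ibad.const_mul _)).add (integrable_const _)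
  have hle : ∫ η, ∑ s, Hs β A w a b (p / q) κ K α γ s η ∂μ ≤
      ∫ η, ((γ - α) / (2 * lam) * (∑ s, g (η s)) ^ 2 +
      α * (∑ s, g (η s)) + β * a * K * N * bad α γ (X η) +
        ((γ - α) * lam / 2 - β * a * κ * N)) ∂μ := by
    refine integral_mono ?_ hint hpt
    refine integrable_finsetSum _ fun s _ => ?_
    exact Integrable.of_bound (measurable_Hs β A w a b (p / q) κ K α γ s).aestronglyMeasurable _
        (Filter.Eventually.of_forall fun η => by
          rw [Real.norm_eq_abs]
          exact abs_Hs_le hβ A hw ha hpq hκ0 hK0.le hαγ s η)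
  have hval : ∫ η, ((γ - α) / (2 * lam) * (∑ s, g (η s)) ^ 2 +
      α * (∑ s, g (η s)) + β * a * K * N * bad α γ (X η) +
        ((γ - α) * lam / 2 - β * a * κ * N)) ∂μ =
      (γ - α) / (2 * lam) * (∫ η, (∑ s, g (η s)) ^ 2 ∂μ) + α * 0 +
        β * a * K * N * (∫ η, bad α γ (X η) ∂μ) + ((γ - α) * lam / 2 - β * a * κ * N) := by
    have i1 : Integrable (fun η : V → ℝ => (γ - α) / (2 * lam) * (∑ s, g (η s)) ^ 2) μ :=
      iG2.const_mul _
    have i2 : Integrable (fun η : V → ℝ => α * (∑ s, g (η s))) μ := iG.const_mul _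
    have i3 : Integrable (fun η : V → ℝ => β * a * K * N * bad α γ (X η)) μ := ibad.const_mul _
    have i12 : Integrable (fun η : V → ℝ => (γ - α) / (2 * lam) * (∑ s, g (η s)) ^ 2 +
      α * (∑ s, g (η s))) μ := i1.add i2
    have i123 : Integrable (fun η : V → ℝ => (γ - α) / (2 * lam) * (∑ s, g (η s)) ^ 2 +
      α * (∑ s, g (η s)) + β * a * K * N * bad α γ (X η)) μ := i12.add i3
    rw [integral_add i123 (integrable_const _), integral_add i12 i3, integral_add i1 i2,
      integral_const_mul, integral_const_mul, integral_const_mul, integral_G ρ g hgm hgK hg0]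
    simp
  rw [hval] at hle
  have hsq := integral_G_sq (V := V) ρ g hgm hgK hg0
  rw [← hlam2] at hsq
  have h7 : (γ - α) / (2 * lam) * (∫ η, (∑ s, g (η s)) ^ 2 ∂μ) ≤ (γ - α) * lam / 2 := by
    calc _ ≤ (γ - α) / (2 * lam) * lam ^ 2 :=
          mul_le_mul_of_nonneg_left hsq (div_nonneg (by linarith) (by linarith))
      _ = _ := by field_simp
  have h8 : β * a * K * N * (∫ η, bad α γ (X η) ∂μ) ≤ β * a * K * N * ε :=
    mul_le_mul_of_nonneg_left hε (by positivity)
  linarith

theorem integral_bad {V : Type} [Fintype V] (ρ : Measure ℝ) [IsProbabilityMeasure ρ]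
    {X : (V → ℝ) → ℝ} (hX : Measurable X) (α γ : ℝ) :
    ∫ η, bad α γ (X η) ∂(Measure.pi fun _ : V => ρ) =
      (Measure.pi fun _ : V => ρ).real {η | X η ∉ Set.Icc α γ} := by
  have hms : MeasurableSet {η : V → ℝ | X η ∉ Set.Icc α γ} := (hX measurableSet_Icc).compl
  have e : (fun η : V → ℝ => bad α γ (X η)) =
      {η : V → ℝ | X η ∉ Set.Icc α γ}.indicator fun _ => (1 : ℝ) := by
    funext η
    by_cases h : α ≤ X η ∧ X η ≤ γ
    · have h' : η ∉ {η : V → ℝ | X η ∉ Set.Icc α γ} := fun h2 => h2 h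
      rw [Set.indicator_of_notMem h']
      simp [bad, h]
    · have h' : η ∈ {η : V → ℝ | X η ∉ Set.Icc α γ} := h
      rw [Set.indicator_of_mem h']
      simp [bad, h]
  rw [e, integral_indicator_const _ hms]
  simp

end FL

/-- Abstract fluctuation lower bound: if the free energy of a finite family of paths, each
with `N` sites, stays in an interval with high probability, then the interval is long. -/
theorem fluct (ρ : Measure ℝ) [IsProbabilityMeasure ρ] (hnc : ∀ c : ℝ, ρ {c} ≠ 1) (β : ℝ)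
    (hβ : 0 < β) (hexp : Integrable (fun t => Real.exp (β * t)) ρ) :
    ∃ ε > 0, ∃ c > 0, ∀ (V P : Type) [Fintype V] [Fintype P] [Nonempty P] (A : P → Finset V)
      (w : P → ℝ) (N : ℕ), (∀ p, 0 < w p) → (∀ p, (A p).card = N) → ∀ α γ : ℝ,
      (Measure.pi fun _ : V => ρ)
        {η | Real.log (∑ p, w p * Real.exp (β * ∑ s ∈ A p, η s)) ∉ Set.Icc α γ} ≤
          ENNReal.ofReal ε →
      c * N ≤ (γ - α) * Real.sqrt (Fintype.card V) := by
  obtain ⟨b, a, ha, hp, hq⟩ := FL.exists_gap ρ hnc
  set p := ρ.real (Set.Iic b) with hpd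
  set q := ρ.real (Set.Ici (b + a)) with hqd
  set M1 := ∫ t in Set.Iic b, Real.exp (β * (t - b)) ∂ρ with hM1
  set M2 := ∫ t in Set.Ioi b, Real.exp (β * (t - b)) ∂ρ with hM2
  have hM1p : 0 < M1 := FL.M1_pos ρ hexp hp
  have hM2p : 0 ≤ M2 := integral_nonneg fun t => (Real.exp_pos _).le
  set κ := M1 / (M1 + M2) with hκ
  set K := 1 + p / q with hK
  have hκ0 : 0 < κ := by positivity
  have hκ1 : κ ≤ 1 := div_le_one_of_le₀ (by linarith) (by positivity)
  have hK1 : 1 ≤ K := by rw [hK]; linarith [div_pos hp hq]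
  have hK0 : 0 < K := by linarith
  refine ⟨κ / (2 * K), by positivity, β * a * κ / (2 * K), by positivity, ?_⟩
  intro V P _ _ _ A w N hw hN α γ hbad
  classical
  have hεlt : κ / (2 * K) < 1 := by
    rw [div_lt_one (by positivity)]
    linarith
  rcases isEmpty_or_nonempty V with hV | hV
  · have hN0 : N = 0 := by
      rw [← hN (Classical.arbitrary P), Finset.card_eq_zero]
      exact Finset.eq_empty_of_isEmpty _
    rw [hN0]
    simp
  by_cases hαγ : α ≤ γ
  · have hXm : Measurable fun η : V → ℝ => Real.log (∑ p, FL.W β A w η p) :=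
      Real.measurable_log.comp (FL.measurable_sumW β A w)
    have hε : ∫ η, FL.bad α γ (Real.log (∑ p, FL.W β A w η p)) ∂(Measure.pi fun _ : V => ρ) ≤
        κ / (2 * K) := by
      rw [FL.integral_bad ρ hXm]
      exact ENNReal.toReal_le_of_le_ofReal (by positivity) hbad
    have h := FL.main_ineq ρ hβ hexp A hw hN ha hpd hqd hp hq hM1 hM2 hM1p hM2p hκ hK hαγ hε
    have h1 : β * a * K * N * (κ / (2 * K)) = β * a * κ * N / 2 := by
      field_simp
    rw [h1] at h
    have h2 : β * a * κ * N / 2 ≤ K * ((γ - α) * Real.sqrt (Fintype.card V)) := by linarith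
    calc β * a * κ / (2 * K) * N = (β * a * κ * N / 2) / K := by field_simp
      _ ≤ (K * ((γ - α) * Real.sqrt (Fintype.card V))) / K := by
          exact div_le_div_of_nonneg_right h2 hK0.le
      _ = _ := by field_simp
  · exfalso
    have hset : {η : V → ℝ | Real.log (∑ p, w p * Real.exp (β * ∑ s ∈ A p, η s)) ∉
        Set.Icc α γ} = Set.univ := by
      rw [Set.Icc_eq_empty hαγ]
      ext η
      simp
    rw [hset, measure_univ, ENNReal.one_le_ofReal] at hbad
    linarith

end Pool.Agent.W_MP_7d29a1_pr
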