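import Pool.Agent.W_MP_7d29a1_pr.Path
import Pool.Agent.W_MP_7d29a1_pr.Fluct

/-!
The random environment: laws, independence, first moment bounds.
-/

namespace Pool.Agent.W_MP_7d29a1_pr

open MeasureTheory ProbabilityTheory

variable {d : ℕ}

/-- Independent identically distributed environment with law `ρ`. -/
structure IID {Ω : Type*} [MeasurableSpace Ω] (μ : Measure Ω) (ρ : Measure ℝ)
    (ω : ℕ × Site d → Ω → ℝ) : Prop where
  meas : ∀ p, Measurable (ω p)
  indep : iIndepFun ω μ
  law : ∀ p, μ.map (ω p) = ρ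

/-- Extension by zero. -/
noncomputable def extF (F : Finset (ℕ × Site d)) (g : F → ℝ) : ℕ × Site d → ℝ :=
  fun p => if h : p ∈ F then g ⟨p, h⟩ else 0

/-- The log partition function in the box. -/
noncomputable def XF (β : ℝ) (n r : ℕ) (η : ℕ × Site d → ℝ) : ℝ :=
  Real.log (ZE β η n (good d n r))

theorem XF_extF (β : ℝ) (n r : ℕ) (η : ℕ × Site d → ℝ) :
    XF β n r (extF (FF d n r) fun v => η v) = XF β n r η := by
  unfold XF
  rw [ZE_congr]
  intro p hp
  unfold extF
  rw [dif_pos hp]

theorem measurable_extF (F : Finset (ℕ × Site d)) : Measurable (extF F) := by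
  rw [measurable_pi_iff]
  intro p
  unfold extF
  by_cases h : p ∈ F
  · simp only [dif_pos h]
    exact measurable_pi_apply _
  · simp only [dif_neg h]
    exact measurable_const

theorem measurable_energy {n : ℕ} (s : Fin n → Step d) :
    Measurable fun η : ℕ × Site d → ℝ => energy η s := by
  unfold energy
  exact Finset.measurable_sum _ fun i _ => measurable_pi_apply _

theorem measurable_ZE (β : ℝ) (n : ℕ) (E : Set (Fin n → Step d)) :
    Measurable fun η : ℕ × Site d → ℝ => ZE β η n E := by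
  unfold ZE
  refine Finset.measurable_sum _ fun s _ => ?_
  by_cases h : s ∈ E
  · simp only [if_pos h]
    exact Real.measurable_exp.comp ((measurable_energy s).const_mul _)
  · simp only [if_neg h]
    exact measurable_const

theorem measurable_XF (β : ℝ) (n r : ℕ) : Measurable (XF β n r : (ℕ × Site d → ℝ) → ℝ) :=
  Real.measurable_log.comp (measurable_ZE β n _)

theorem measurable_Pol (β : ℝ) (n : ℕ) (E : Set (Fin n → Step d)) :
    Measurable fun η : ℕ × Site d → ℝ => Pol β η n E := by
  simp only [Pol_eq]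
  exact (measurable_ZE β n E).div (measurable_ZE β n Set.univ)

variable {Ω : Type*} [MeasurableSpace Ω] {μ : Measure Ω} {ρ : Measure ℝ}
  {ω : ℕ × Site d → Ω → ℝ}

theorem IID.measurable_field (h : IID μ ρ ω) : Measurable fun x => fun p => ω p x :=
  measurable_pi_iff.2 h.meas

theorem IID.law_eq [IsProbabilityMeasure μ] (h : IID μ ρ ω) (β : ℝ) (n r : ℕ) {B : Set ℝ}
    (hB : MeasurableSet B) :
    μ {x | XF β n r (fun p => ω p x) ∈ B} =
      (Measure.pi fun _ : FF d n r => ρ) {g | XF β n r (extF (FF d n r) g) ∈ B} := by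
  have hind : iIndepFun (fun (v : FF d n r) => ω v) μ :=
    h.indep.precomp Subtype.val_injective
  have hmap := (iIndepFun_iff_map_fun_eq_pi_map (f := fun (v : FF d n r) => ω v)
    fun v => (h.meas v).aemeasurable).1 hind
  simp only [h.law] at hmap
  rw [← hmap, Measure.map_apply]
  · congr 1
    ext x
    change XF β n r (fun p => ω p x) ∈ B ↔ XF β n r (extF (FF d n r) fun v => ω v x) ∈ B
    rw [XF_extF β n r (fun p => ω p x)]
  · exact measurable_pi_iff.2 fun v => h.meas v
  · exact ((measurable_XF β n r).comp (measurable_extF _)) hB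

theorem sum_subtype_sites {n r : ℕ} {s : Fin n → Step d} (hs : s ∈ good d n r)
    (g : FF d n r → ℝ) :
    ∑ v ∈ (sites s).subtype (· ∈ FF d n r), g v = energy (extF (FF d n r) g) s := by
  rw [energy_eq]
  have h1 : ∀ v ∈ (sites s).subtype (· ∈ FF d n r), g v = extF (FF d n r) g v := by
    intro v _
    unfold extF
    rw [dif_pos v.2]
  rw [Finset.sum_congr rfl h1, Finset.sum_subtype_eq_sum_filter, Finset.filter_true_of_mem]
  exact fun p hp => sites_subset hs hp

theorem sum_subtype_good (β : ℝ) {n r : ℕ} (g : FF d n r → ℝ)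
    [Fintype {s : Fin n → Step d // s ∈ good d n r}] :
    ∑ s : {s : Fin n → Step d // s ∈ good d n r}, (1 : ℝ) *
        Real.exp (β * ∑ v ∈ (sites s.1).subtype (· ∈ FF d n r), g v) =
      ZE β (extF (FF d n r) g) n (good d n r) := by
  classical
  unfold ZE
  rw [← Finset.sum_filter, Finset.sum_subtype (p := fun s => s ∈ good d n r)
    (Finset.univ.filter fun s : Fin n → Step d => s ∈ good d n r) (by simp)]
  refine Finset.sum_congr rfl fun s _ => ?_
  rw [sum_subtype_sites s.2, one_mul]

/-- The fluctuation lower bound for the polymer in a box. -/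
theorem fluct_box (d : ℕ) (ρ : Measure ℝ) [IsProbabilityMeasure ρ] (hnc : ∀ c : ℝ, ρ {c} ≠ 1)
    (β : ℝ) (hβ : 0 < β) (hexp : Integrable (fun t => Real.exp (β * t)) ρ) :
    ∃ ε > 0, ∃ c > 0, ∀ (n r : ℕ) (_ : (good d n r).Nonempty) (α γ : ℝ),
      (Measure.pi fun _ : FF d n r => ρ)
        {g | XF β n r (extF (FF d n r) g) ∉ Set.Icc α γ} ≤ ENNReal.ofReal ε →
      c * n ≤ (γ - α) * Real.sqrt (n * (2 * r + 1) ^ d) := by
  classical
  obtain ⟨ε, hε, c, hc, h⟩ := fluct ρ hnc β hβ hexp
  refine ⟨ε, hε, c, hc, ?_⟩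
  intro n r hne α γ hbad
  obtain ⟨s0, hs0⟩ := hne
  have : Nonempty {s : Fin n → Step d // s ∈ good d n r} := ⟨⟨s0, hs0⟩⟩
  have hcard : ∀ p : {s : Fin n → Step d // s ∈ good d n r},
      ((sites p.1).subtype (· ∈ FF d n r)).card = n := by
    intro p
    rw [Finset.card_subtype, Finset.filter_true_of_mem, card_sites]
    exact fun q hq => sites_subset p.2 hq
  have h1 := h (FF d n r) {s : Fin n → Step d // s ∈ good d n r}
    (fun p => (sites p.1).subtype (· ∈ FF d n r)) (fun _ => 1) n (fun _ => one_pos) hcard α γ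
  have h3 := h1 (by
    refine le_trans (le_of_eq ?_) hbad
    congr 1
    ext g
    change Real.log _ ∉ _ ↔ XF β n r (extF (FF d n r) g) ∉ _
    rw [sum_subtype_good β g]
    rfl)
  rw [Fintype.card_coe, card_FF] at h3
  push_cast at h3
  exact h3

theorem IID.fluct_of [IsProbabilityMeasure μ] (h : IID μ ρ ω) {β ε c : ℝ}
    (hf : ∀ (n r : ℕ) (_ : (good d n r).Nonempty) (α γ : ℝ),
      (Measure.pi fun _ : FF d n r => ρ)
        {g | XF β n r (extF (FF d n r) g) ∉ Set.Icc α γ} ≤ ENNReal.ofReal ε →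
      c * n ≤ (γ - α) * Real.sqrt (n * (2 * r + 1) ^ d)) {n r : ℕ}
    (hne : (good d n r).Nonempty) (α γ : ℝ)
    (hbad : μ {x | XF β n r (fun p => ω p x) ∉ Set.Icc α γ} ≤ ENNReal.ofReal ε) :
    c * n ≤ (γ - α) * Real.sqrt (n * (2 * r + 1) ^ d) := by
  apply hf n r hne α γ
  have h2 := h.law_eq β n r (measurableSet_Icc (a := α) (b := γ)).compl
  exact (le_of_eq h2.symm).trans hbad

/-- The shift of sites. -/
def tau (hd : 0 < d) (k : ℕ) (p : ℕ × Site d) : ℕ × Site d := (p.1 + k, p.2 + k • e1 hd)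

theorem tau_injective (hd : 0 < d) (k : ℕ) : Function.Injective (tau hd k) := by
  intro p q h
  unfold tau at h
  rw [Prod.mk.injEq] at h
  exact Prod.ext (by omega) (add_right_cancel h.2)

theorem IID.shifted (h : IID μ ρ ω) (hd : 0 < d) (k : ℕ) :
    IID μ ρ (fun p => ω (tau hd k p)) :=
  ⟨fun _ => h.meas _, h.indep.precomp (tau_injective hd k), fun _ => h.law _⟩

theorem e1_apply (hd : 0 < d) : (e1 hd : Site d) ⟨0, hd⟩ = 1 := by
  simp [e1, vec]

theorem disjoint_FF (hd : 0 < d) {k m r : ℕ} (hk : 2 * r < k) :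
    Disjoint (FF d (k + m) r) ((FF d m r).image (tau hd k)) := by
  rw [Finset.disjoint_left]
  intro p hp hp'
  rw [Finset.mem_image] at hp'
  obtain ⟨q, hq, rfl⟩ := hp'
  unfold FF tau at hp
  unfold FF at hq
  rw [Finset.mem_product, mem_boxF] at hp hq
  have h1 := hp.2 ⟨0, hd⟩
  have h2 := hq.2 ⟨0, hd⟩
  change |(q.2 + k • e1 hd) ⟨0, hd⟩| ≤ (r : ℤ) at h1
  rw [Pi.add_apply, Pi.smul_apply, e1_apply, nsmul_eq_mul, mul_one, abs_le] at h1
  rw [abs_le] at h2
  omega

theorem IID.indep_shift (h : IID μ ρ ω) (hd : 0 < d) (β : ℝ) {k m r : ℕ} (hk : 2 * r < k) :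
    IndepFun (fun x => XF β (k + m) r (fun p => ω p x))
      (fun x => XF β m r (shift hd k (fun p => ω p x))) μ := by
  classical
  have h1 := h.indep.indepFun_finset _ _ (disjoint_FF hd (m := m) hk) h.meas
  have hψ : Measurable fun g : ((FF d m r).image (tau hd k) : Finset (ℕ × Site d)) → ℝ =>
      XF β m r (extF (FF d m r) fun v => g ⟨tau hd k v, Finset.mem_image_of_mem _ v.2⟩) := by
    refine (measurable_XF β m r).comp ((measurable_extF _).comp ?_)
    exact measurable_pi_iff.2 fun v => measurable_pi_apply _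
  have h2 := h1.comp ((measurable_XF β (k + m) r).comp (measurable_extF (FF d (k + m) r))) hψ
  have e1' : (fun x => XF β (k + m) r (fun p => ω p x)) =
      (XF β (k + m) r ∘ extF (FF d (k + m) r)) ∘ fun a (i : FF d (k + m) r) => ω i a := by
    funext x
    exact (XF_extF β (k + m) r (fun p => ω p x)).symm
  have e2' : (fun x => XF β m r (shift hd k (fun p => ω p x))) =
      (fun g : ((FF d m r).image (tau hd k) : Finset (ℕ × Site d)) → ℝ =>
      XF β m r (extF (FF d m r) fun v => g ⟨tau hd k v, Finset.mem_image_of_mem _ v.2⟩)) ∘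
        fun a (i : ((FF d m r).image (tau hd k) : Finset (ℕ × Site d))) => ω i a := by
    funext x
    exact (XF_extF β m r (shift hd k (fun p => ω p x))).symm
  rw [e1', e2']
  exact h2

theorem IID.integrable_of (h : IID μ ρ ω) {f : ℝ → ℝ} (hf : Integrable f ρ) (p : ℕ × Site d) :
    Integrable (fun x => f (ω p x)) μ := by
  have h1 : Integrable f (μ.map (ω p)) := by rw [h.law p]; exact hf
  exact h1.comp_measurable (h.meas p)

theorem IID.integral_of (h : IID μ ρ ω) {f : ℝ → ℝ} (hf : Integrable f ρ) (p : ℕ × Site d) :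
    ∫ x, f (ω p x) ∂μ = ∫ t, f t ∂ρ := by
  rw [← h.law p, integral_map (h.meas p).aemeasurable]
  rw [h.law p]
  exact hf.aestronglyMeasurable

theorem IID.integral_exp_energy [IsProbabilityMeasure μ] (h : IID μ ρ ω) {β : ℝ}
    (hexp : Integrable (fun t => Real.exp (β * t)) ρ) {n : ℕ} (s : Fin n → Step d) :
    Integrable (fun x => Real.exp (β * energy (fun p => ω p x) s)) μ ∧
      ∫ x, Real.exp (β * energy (fun p => ω p x) s) ∂μ = (∫ t, Real.exp (β * t) ∂ρ) ^ n := by
  have hint : ∀ p, Integrable (fun x => Real.exp (β * ω p x)) μ := fun p => h.integrable_of hexp p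
  have e : (fun x => Real.exp (β * energy (fun p => ω p x) s)) =
      fun x => Real.exp (β * (∑ p ∈ sites s, ω p) x) := by
    funext x
    rw [energy_eq, Finset.sum_apply]
  constructor
  · rw [e]
    exact h.indep.integrable_exp_mul_sum h.meas fun p _ => hint p
  · have h1 := h.indep.mgf_sum h.meas (sites s) (t := β)
    unfold mgf at h1
    rw [e, h1, Finset.prod_congr rfl fun p _ => h.integral_of hexp p, Finset.prod_const,
      card_sites]

theorem IID.upper [IsProbabilityMeasure μ] (h : IID μ ρ ω) {β : ℝ}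
    (hexp : Integrable (fun t => Real.exp (β * t)) ρ) {n r : ℕ} (hne : (good d n r).Nonempty)
    (a : ℝ) :
    Real.exp a * μ.real {x | a ≤ XF β n r (fun p => ω p x)} ≤
      (2 * d * ∫ t, Real.exp (β * t) ∂ρ) ^ n := by
  classical
  have hpos : ∀ x, 0 < ZE β (fun p => ω p x) n (good d n r) := fun x => ZE_pos _ _ _ hne
  have hset : {x | a ≤ XF β n r (fun p => ω p x)} =
      {x | Real.exp a ≤ ZE β (fun p => ω p x) n (good d n r)} := by
    ext x
    exact Real.le_log_iff_exp_le (hpos x)
  have hI : ∀ s : Fin n → Step d, Integrable (fun x => if s ∈ good d n r then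
      Real.exp (β * energy (fun p => ω p x) s) else 0) μ := by
    intro s
    split_ifs
    · exact (h.integral_exp_energy hexp s).1
    · exact integrable_zero _ _ _
  have hint : Integrable (fun x => ZE β (fun p => ω p x) n (good d n r)) μ :=
    integrable_finsetSum _ fun s _ => hI s
  rw [hset]
  refine (mul_meas_ge_le_integral_of_nonneg (Filter.Eventually.of_forall fun x =>
    (hpos x).le) hint (Real.exp a)).trans ?_
  have hM : 0 ≤ ∫ t, Real.exp (β * t) ∂ρ := integral_nonneg fun t => (Real.exp_pos _).le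
  calc ∫ x, ZE β (fun p => ω p x) n (good d n r) ∂μ
      = ∑ s : Fin n → Step d, ∫ x, (if s ∈ good d n r then
      Real.exp (β * energy (fun p => ω p x) s) else 0) ∂μ := integral_finsetSum _ fun s _ => hI s
    _ ≤ ∑ s : Fin n → Step d, (∫ t, Real.exp (β * t) ∂ρ) ^ n := by
        refine Finset.sum_le_sum fun s _ => ?_
        split_ifs
        · exact (h.integral_exp_energy hexp s).2.le
        · rw [integral_zero]
          positivity
    _ = (2 * d * ∫ t, Real.exp (β * t) ∂ρ) ^ n := by
        rw [Finset.sum_const, Finset.card_univ, Fintype.card_fun, Fintype.card_prod,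
          Fintype.card_fin, Fintype.card_fin, Fintype.card_bool, nsmul_eq_mul, mul_pow]
        push_cast
        ring

theorem integrable_abs_of_exp {ρ : Measure ℝ} [IsProbabilityMeasure ρ]
    (hexp : ∀ β : ℝ, Integrable (fun t => Real.exp (β * t)) ρ) : Integrable (fun t : ℝ => |t|) ρ := by
  refine ((hexp 1).add (hexp (-1))).mono' (by fun_prop) (Filter.Eventually.of_forall fun t => ?_)
  rw [Real.norm_eq_abs, abs_abs]
  simp only [Pi.add_apply, one_mul, neg_mul]
  have h1 := Real.add_one_le_exp t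
  have h2 := Real.add_one_le_exp (-t)
  have h3 := Real.exp_pos t
  have h4 := Real.exp_pos (-t)
  rw [abs_le]
  constructor <;> linarith

/-- Markov for the straight path. -/
theorem IID.straight [IsProbabilityMeasure μ] (h : IID μ ρ ω)
    (habs : Integrable (fun t : ℝ => |t|) ρ) (hd : 0 < d) (k : ℕ) (K : ℝ) :
    K * μ.real {x | ∑ i ∈ Finset.range k, ω (i + 1, (i + 1) • e1 hd) x < -K} ≤
      k * ∫ t, |t| ∂ρ := by
  by_cases hK : 0 ≤ K
  · have hsub : {x | ∑ i ∈ Finset.range k, ω (i + 1, (i + 1) • e1 hd) x < -K} ⊆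
        {x | K ≤ ∑ i ∈ Finset.range k, |ω (i + 1, (i + 1) • e1 hd) x|} := by
      intro x hx
      have hx : ∑ i ∈ Finset.range k, ω (i + 1, (i + 1) • e1 hd) x < -K := hx
      have h1 := Finset.abs_sum_le_sum_abs (fun i => ω (i + 1, (i + 1) • e1 hd) x)
        (Finset.range k)
      have h2 := neg_abs_le (∑ i ∈ Finset.range k, ω (i + 1, (i + 1) • e1 hd) x)
      change K ≤ _
      linarith
    have hint : Integrable (fun x => ∑ i ∈ Finset.range k, |ω (i + 1, (i + 1) • e1 hd) x|) μ :=
      integrable_finsetSum _ fun i _ => h.integrable_of habs _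
    have h1 := mul_meas_ge_le_integral_of_nonneg (Filter.Eventually.of_forall fun x =>
      Finset.sum_nonneg fun i (_ : i ∈ Finset.range k) =>
        abs_nonneg (ω (i + 1, (i + 1) • e1 hd) x)) hint K
    rw [integral_finsetSum _ fun i _ => h.integrable_of habs _,
      Finset.sum_congr rfl fun i _ => h.integral_of habs _, Finset.sum_const, Finset.card_range,
      nsmul_eq_mul] at h1
    exact (mul_le_mul_of_nonneg_left (measureReal_mono hsub) hK).trans h1
  · push Not at hK
    have h1 : 0 ≤ (k : ℝ) * ∫ t, |t| ∂ρ :=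
      mul_nonneg (Nat.cast_nonneg _) (integral_nonneg fun t => abs_nonneg t)
    have h2 : K * μ.real {x | ∑ i ∈ Finset.range k, ω (i + 1, (i + 1) • e1 hd) x < -K} ≤ 0 :=
      mul_nonpos_of_nonpos_of_nonneg hK.le measureReal_nonneg
    linarith

end Pool.Agent.W_MP_7d29a1_pr
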