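import Pool.Agent.W_MP_7d29a1_pr.Model

/-!
Paths: sites, energy, restricted partition functions, concatenation with a straight path.
-/

namespace Pool.Agent.W_MP_7d29a1_pr

open MeasureTheory ProbabilityTheory

variable {d : ℕ}

/-- The box `[-r, r]^d`. -/
noncomputable def boxF (d r : ℕ) : Finset (Site d) := Fintype.piFinset fun _ => Finset.Icc (-(r : ℤ)) r

theorem card_boxF (d r : ℕ) : (boxF d r).card = (2 * r + 1) ^ d := by
  unfold boxF
  rw [Fintype.card_piFinset]
  simp only [Int.card_Icc, Finset.prod_const, Finset.card_univ, Fintype.card_fin]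
  congr 1
  omega

theorem mem_boxF {r : ℕ} {x : Site d} : x ∈ boxF d r ↔ ∀ i, |x i| ≤ r := by
  unfold boxF
  rw [Fintype.mem_piFinset]
  simp only [Finset.mem_Icc, abs_le]

theorem zero_mem_boxF (r : ℕ) : (0 : Site d) ∈ boxF d r := by
  rw [mem_boxF]
  intro i
  simp

/-- Paths staying in the box. -/
def good (d n r : ℕ) : Set (Fin n → Step d) := {s | ∀ i ≤ n, pos s i ∈ boxF d r}

open Classical in
/-- Partition function of a set of paths. -/
noncomputable def ZE (β : ℝ) (η : ℕ × Site d → ℝ) (n : ℕ) (E : Set (Fin n → Step d)) : ℝ :=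
  ∑ s : Fin n → Step d, if s ∈ E then Real.exp (β * energy η s) else 0

/-- The `i`-th site of a path. -/
def siteOf {n : ℕ} (s : Fin n → Step d) (i : Fin n) : ℕ × Site d :=
  ((i : ℕ) + 1, pos s ((i : ℕ) + 1))

theorem siteOf_injective {n : ℕ} (s : Fin n → Step d) : Function.Injective (siteOf s) := by
  intro i j h
  have := congrArg Prod.fst h
  simp only [siteOf] at this
  exact Fin.ext (by omega)

/-- The sites of a path. -/
def sites {n : ℕ} (s : Fin n → Step d) : Finset (ℕ × Site d) := Finset.univ.image (siteOf s)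

theorem card_sites {n : ℕ} (s : Fin n → Step d) : (sites s).card = n := by
  unfold sites
  rw [Finset.card_image_of_injective _ (siteOf_injective s)]
  simp

theorem energy_eq {n : ℕ} (η : ℕ × Site d → ℝ) (s : Fin n → Step d) :
    energy η s = ∑ p ∈ sites s, η p := by
  unfold sites
  rw [Finset.sum_image fun i _ j _ h => siteOf_injective s h]
  rfl

/-- The sites seen by paths in the box. -/
noncomputable def FF (d n r : ℕ) : Finset (ℕ × Site d) := Finset.Icc 1 n ×ˢ boxF d r

theorem card_FF (d n r : ℕ) : (FF d n r).card = n * (2 * r + 1) ^ d := by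
  unfold FF
  rw [Finset.card_product, card_boxF]
  simp

theorem sites_subset {n r : ℕ} {s : Fin n → Step d} (hs : s ∈ good d n r) :
    sites s ⊆ FF d n r := by
  intro p hp
  unfold sites at hp
  rw [Finset.mem_image] at hp
  obtain ⟨i, _, rfl⟩ := hp
  unfold FF siteOf
  rw [Finset.mem_product]
  exact ⟨Finset.mem_Icc.2 ⟨by simp, i.2⟩, hs _ i.2⟩

theorem ZE_congr {β : ℝ} {n r : ℕ} {η η' : ℕ × Site d → ℝ} (h : ∀ p ∈ FF d n r, η p = η' p) :
    ZE β η n (good d n r) = ZE β η' n (good d n r) := by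
  unfold ZE
  refine Finset.sum_congr rfl fun s _ => ?_
  by_cases hs : s ∈ good d n r
  · rw [if_pos hs, if_pos hs, energy_eq, energy_eq]
    congr 2
    exact Finset.sum_congr rfl fun p hp => h p (sites_subset hs hp)
  · rw [if_neg hs, if_neg hs]

theorem ZE_nonneg (β : ℝ) (η : ℕ × Site d → ℝ) (n : ℕ) (E : Set (Fin n → Step d)) :
    0 ≤ ZE β η n E := by
  unfold ZE
  refine Finset.sum_nonneg fun s _ => ?_
  split_ifs
  · exact (Real.exp_pos _).le
  · exact le_rfl

theorem ZE_pos (β : ℝ) (η : ℕ × Site d → ℝ) (n : ℕ) {E : Set (Fin n → Step d)}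
    (hE : E.Nonempty) : 0 < ZE β η n E := by
  classical
  obtain ⟨s, hs⟩ := hE
  unfold ZE
  refine Finset.sum_pos' (fun s _ => ?_) ⟨s, Finset.mem_univ _, ?_⟩
  · split_ifs
    · exact (Real.exp_pos _).le
    · exact le_rfl
  · rw [if_pos hs]
    exact Real.exp_pos _

theorem ZE_mono (β : ℝ) (η : ℕ × Site d → ℝ) (n : ℕ) {E E' : Set (Fin n → Step d)}
    (h : E ⊆ E') : ZE β η n E ≤ ZE β η n E' := by
  unfold ZE
  refine Finset.sum_le_sum fun s _ => ?_
  by_cases hs : s ∈ E
  · rw [if_pos hs, if_pos (h hs)]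
  · rw [if_neg hs]
    split_ifs
    · exact (Real.exp_pos _).le
    · exact le_rfl

theorem Pol_eq (β : ℝ) (η : ℕ × Site d → ℝ) (n : ℕ) (E : Set (Fin n → Step d)) :
    Pol β η n E = ZE β η n E / ZE β η n Set.univ := by
  unfold Pol ZE
  simp

theorem ZE_univ_pos (hd : 0 < d) (β : ℝ) (η : ℕ × Site d → ℝ) (n : ℕ) :
    0 < ZE β η n Set.univ :=
  ZE_pos β η n ⟨fun _ => (⟨0, hd⟩, true), trivial⟩

theorem Pol_le_one (β : ℝ) (η : ℕ × Site d → ℝ) (n : ℕ) (E : Set (Fin n → Step d)) :
    Pol β η n E ≤ 1 := by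
  rw [Pol_eq]
  exact div_le_one_of_le₀ (ZE_mono β η n (Set.subset_univ E)) (ZE_nonneg _ _ _ _)

theorem Pol_nonneg (β : ℝ) (η : ℕ × Site d → ℝ) (n : ℕ) (E : Set (Fin n → Step d)) :
    0 ≤ Pol β η n E := by
  rw [Pol_eq]
  exact div_nonneg (ZE_nonneg _ _ _ _) (ZE_nonneg _ _ _ _)

theorem abs_le_nrm (x : Site d) (i : Fin d) : |(x i : ℝ)| ≤ nrm x := by
  unfold nrm
  rw [← Real.sqrt_sq_eq_abs]
  apply Real.sqrt_le_sqrt
  exact Finset.single_le_sum (f := fun i => (x i : ℝ) ^ 2) (fun j _ => sq_nonneg _)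
    (Finset.mem_univ i)

theorem inBall_subset_good {n r : ℕ} {ρ : ℝ} (h : ρ ≤ r) : inBall d n ρ ⊆ good d n r := by
  intro s hs i hi
  rw [mem_boxF]
  intro j
  have h1 := (abs_le_nrm (pos s i) j).trans ((hs i hi).trans h)
  exact_mod_cast h1

theorem half_le_of_Pol (hd : 0 < d) {β : ℝ} {η : ℕ × Site d → ℝ} {n r : ℕ} {ρ : ℝ}
    (h : ρ ≤ r) (hP : 1 / 2 ≤ Pol β η n (inBall d n ρ)) :
    1 / 2 * ZE β η n Set.univ ≤ ZE β η n (good d n r) := by
  rw [Pol_eq, le_div_iff₀ (ZE_univ_pos hd β η n)] at hP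
  exact hP.trans (ZE_mono β η n (inBall_subset_good h))

/-- The first unit vector. -/
def e1 (hd : 0 < d) : Site d := vec (⟨0, hd⟩, true)

/-- Shifted environment. -/
def shift (hd : 0 < d) (k : ℕ) (η : ℕ × Site d → ℝ) : ℕ × Site d → ℝ :=
  fun p => η (p.1 + k, p.2 + k • e1 hd)

/-- Concatenation of a straight path of length `k` with `s`. -/
def cat (hd : 0 < d) (k : ℕ) {m : ℕ} (s : Fin m → Step d) : Fin (k + m) → Step d :=
  Fin.append (fun _ : Fin k => ((⟨0, hd⟩, true) : Step d)) s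

theorem cat_injective (hd : 0 < d) (k m : ℕ) :
    Function.Injective (cat hd k : (Fin m → Step d) → Fin (k + m) → Step d) := by
  intro s s' h
  funext i
  have := congrFun h (Fin.natAdd k i)
  simpa [cat] using this

theorem sum_fin_ite_lt (k i : ℕ) (x : Site d) :
    (∑ j : Fin k, if (j : ℕ) < i then x else 0) = (min i k) • x := by
  rw [Fin.sum_univ_eq_sum_range (fun j => if j < i then x else 0) k]
  induction k with
  | zero => simp
  | succ k ih =>
    rw [Finset.sum_range_succ, ih]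
    by_cases h : k < i
    · rw [if_pos h, min_eq_right h.le, min_eq_right (by omega), succ_nsmul]
    · rw [if_neg h, add_zero, min_eq_left (by omega), min_eq_left (by omega)]

theorem pos_cat (hd : 0 < d) (k : ℕ) {m : ℕ} (s : Fin m → Step d) (i : ℕ) :
    pos (cat hd k s) i = (min i k) • e1 hd + pos s (i - k) := by
  unfold pos
  rw [Fin.sum_univ_add]
  congr 1
  · rw [← sum_fin_ite_lt]
    refine Finset.sum_congr rfl fun j _ => ?_
    simp [cat, e1]
  · refine Finset.sum_congr rfl fun j _ => ?_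
    have h : ((Fin.natAdd k j : Fin (k + m)) : ℕ) < i ↔ (j : ℕ) < i - k := by
      rw [Fin.val_natAdd]
      omega
    simp only [h]
    simp [cat]

theorem energy_cat (hd : 0 < d) (k : ℕ) {m : ℕ} (η : ℕ × Site d → ℝ) (s : Fin m → Step d) :
    energy η (cat hd k s) =
      (∑ i ∈ Finset.range k, η (i + 1, (i + 1) • e1 hd)) + energy (shift hd k η) s := by
  unfold energy
  rw [Fin.sum_univ_add]
  congr 1
  · rw [← Fin.sum_univ_eq_sum_range (fun i => η (i + 1, (i + 1) • e1 hd)) k]
    refine Finset.sum_congr rfl fun i _ => ?_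
    rw [pos_cat, Fin.val_castAdd, min_eq_left (by omega), Nat.sub_eq_zero_of_le (by omega)]
    simp [pos]
  · refine Finset.sum_congr rfl fun i _ => ?_
    rw [pos_cat, Fin.val_natAdd, min_eq_right (by omega)]
    unfold shift
    congr 1
    rw [Prod.mk.injEq]
    refine ⟨by ring, ?_⟩
    rw [add_comm, show k + (i : ℕ) + 1 - k = (i : ℕ) + 1 by omega]

theorem ZE_cat (hd : 0 < d) (β : ℝ) (k m r : ℕ) (η : ℕ × Site d → ℝ) :
    Real.exp (β * ∑ i ∈ Finset.range k, η (i + 1, (i + 1) • e1 hd)) *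
      ZE β (shift hd k η) m (good d m r) ≤ ZE β η (k + m) Set.univ := by
  classical
  unfold ZE
  rw [Finset.mul_sum]
  have h1 : ∀ s : Fin m → Step d,
      Real.exp (β * ∑ i ∈ Finset.range k, η (i + 1, (i + 1) • e1 hd)) *
        (if s ∈ good d m r then Real.exp (β * energy (shift hd k η) s) else 0) ≤
      Real.exp (β * energy η (cat hd k s)) := by
    intro s
    rw [energy_cat, mul_add, Real.exp_add]
    split_ifs
    · exact le_rfl
    · rw [mul_zero]
      positivity
  refine (Finset.sum_le_sum fun s _ => h1 s).trans ?_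
  have h2 : ∑ s : Fin m → Step d, Real.exp (β * energy η (cat hd k s)) =
      ∑ s ∈ Finset.univ.image (cat hd k : (Fin m → Step d) → Fin (k + m) → Step d),
        Real.exp (β * energy η s) := by
    rw [Finset.sum_image fun _ _ _ _ h => cat_injective hd k m h]
  rw [h2]
  refine (Finset.sum_le_sum_of_subset_of_nonneg (Finset.subset_univ _)
    fun s _ _ => (Real.exp_pos _).le).trans (le_of_eq ?_)
  refine Finset.sum_congr rfl fun s _ => ?_
  rw [if_pos (Set.mem_univ s)]

/-- The key deterministic inequality. -/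
theorem log_ZE_ge (hd : 0 < d) {β : ℝ} (k m r : ℕ) {η : ℕ × Site d → ℝ} {ρ : ℝ}
    (h : ρ ≤ r) (hP : 1 / 2 ≤ Pol β η (k + m) (inBall d (k + m) ρ))
    (hne : (good d m r).Nonempty) :
    β * (∑ i ∈ Finset.range k, η (i + 1, (i + 1) • e1 hd)) - Real.log 2 +
      Real.log (ZE β (shift hd k η) m (good d m r)) ≤
      Real.log (ZE β η (k + m) (good d (k + m) r)) := by
  have h1 := half_le_of_Pol hd h hP
  have h2 := ZE_cat hd β k m r η
  have h3 := ZE_pos β (shift hd k η) m hne
  have h4 : 1 / 2 * (Real.exp (β * ∑ i ∈ Finset.range k, η (i + 1, (i + 1) • e1 hd)) *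
      ZE β (shift hd k η) m (good d m r)) ≤ ZE β η (k + m) (good d (k + m) r) := by
    linarith
  have h5 := Real.log_le_log (by positivity) h4
  rw [Real.log_mul (by norm_num) (by positivity), Real.log_mul (Real.exp_pos _).ne' h3.ne',
    Real.log_exp, one_div, Real.log_inv] at h5
  linarith

theorem good_nonempty_of_Pol (hd : 0 < d) {β : ℝ} {η : ℕ × Site d → ℝ} {n r : ℕ} {ρ : ℝ}
    (h : ρ ≤ r) (hP : 1 / 2 ≤ Pol β η n (inBall d n ρ)) : (good d n r).Nonempty := by
  by_contra hcon
  rw [Set.not_nonempty_iff_eq_empty] at hcon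
  have h1 := half_le_of_Pol hd h hP
  have h2 := ZE_univ_pos hd β η n
  have h3 : ZE β η n (good d n r) = 0 := by
    rw [hcon]
    unfold ZE
    simp
  linarith

theorem good_zero_nonempty (r : ℕ) : (good d 0 r).Nonempty := by
  refine ⟨fun i => i.elim0, fun i _ => ?_⟩
  have : pos (fun i : Fin 0 => (i.elim0 : Step d)) i = 0 := by
    simp [pos]
  rw [this]
  exact zero_mem_boxF r

theorem ZE_zero (β : ℝ) (η : ℕ × Site d → ℝ) (r : ℕ) : ZE β η 0 (good d 0 r) = 1 := by
  classical
  unfold ZE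
  rw [Fintype.sum_unique]
  have hs : (default : Fin 0 → Step d) ∈ good d 0 r := by
    obtain ⟨s, hs⟩ := good_zero_nonempty (d := d) r
    have : s = default := Subsingleton.elim _ _
    exact this ▸ hs
  rw [if_pos hs]
  simp [energy]

end Pool.Agent.W_MP_7d29a1_pr
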