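import Pool.Agent.W_MP_7d29a1_pr.Law

/-!
Quantiles, the one-step comparison of quantiles, and bounds for quantiles.
-/

namespace Pool.Agent.W_MP_7d29a1_pr

open MeasureTheory ProbabilityTheory Filter Topology

section quantile

variable {Ω : Type*} [MeasurableSpace Ω]

theorem exists_lower_quantile (μ : Measure Ω) [IsProbabilityMeasure μ] {X : Ω → ℝ}
    (hX : Measurable X) {ε : ℝ} (h0 : 0 < ε) (h1 : ε < 1) :
    ∃ α : ℝ, μ.real {x | X x < α} ≤ ε ∧ ε ≤ μ.real {x | X x ≤ α} := by
  have hmono : Monotone fun a : ℝ => μ.real {x | X x ≤ a} := by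
    intro a b hab
    exact measureReal_mono fun x hx => le_trans hx hab
  set S : Set ℝ := {a | ε ≤ μ.real {x | X x ≤ a}} with hS
  have hne : S.Nonempty := by
    have hun : (⋃ n : ℕ, {x | X x ≤ (n : ℝ)}) = Set.univ := by
      ext x
      simp only [Set.mem_iUnion, Set.mem_univ, iff_true]
      exact exists_nat_ge (X x)
    have ht := tendsto_measure_iUnion_atTop (μ := μ) (s := fun n : ℕ => {x | X x ≤ (n : ℝ)})
      (fun a b hab x hx => by
        have hx : X x ≤ (a : ℝ) := hx
        have : (a : ℝ) ≤ b := by exact_mod_cast hab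
        change X x ≤ (b : ℝ)
        linarith)
    rw [hun, measure_univ] at ht
    have ht' := (ENNReal.tendsto_toReal ENNReal.one_ne_top).comp ht
    obtain ⟨n, hn⟩ := (ht'.eventually (lt_mem_nhds (show ε < (1 : ENNReal).toReal by simpa))).exists
    exact ⟨n, le_of_lt hn⟩
  have hbdd : BddBelow S := by
    have hin : (⋂ n : ℕ, {x | X x ≤ -(n : ℝ)}) = ∅ := by
      ext x
      simp only [Set.mem_iInter, Set.mem_empty_iff_false, iff_false, not_forall]
      obtain ⟨n, hn⟩ := exists_nat_gt (-X x)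
      exact ⟨n, fun h => by
        have h : X x ≤ -(n : ℝ) := h
        linarith⟩
    have ht := tendsto_measure_iInter_atTop (μ := μ) (s := fun n : ℕ => {x | X x ≤ -(n : ℝ)})
      (fun n => (hX measurableSet_Iic).nullMeasurableSet)
      (fun a b hab x hx => by
        have hx : X x ≤ -(b : ℝ) := hx
        have : (a : ℝ) ≤ b := by exact_mod_cast hab
        change X x ≤ -(a : ℝ)
        linarith) ⟨0, measure_ne_top _ _⟩
    rw [hin, measure_empty] at ht
    have ht' := (ENNReal.tendsto_toReal ENNReal.zero_ne_top).comp ht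
    obtain ⟨n, hn⟩ := (ht'.eventually (gt_mem_nhds (show (0 : ENNReal).toReal < ε by simpa))).exists
    refine ⟨-(n : ℝ), fun a ha => ?_⟩
    by_contra hlt
    push Not at hlt
    have h2 : μ.real {x | X x ≤ a} ≤ μ.real {x | X x ≤ -(n : ℝ)} := hmono hlt.le
    have h3 : μ.real {x | X x ≤ -(n : ℝ)} < ε := hn
    have h4 : ε ≤ μ.real {x | X x ≤ a} := ha
    linarith
  set α := sInf S with hα
  refine ⟨α, ?_, ?_⟩
  · have hun : (⋃ n : ℕ, {x | X x ≤ α - 1 / ((n : ℝ) + 1)}) = {x | X x < α} := by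
      ext x
      simp only [Set.mem_iUnion]
      constructor
      · rintro ⟨n, hn⟩
        have hn : X x ≤ α - 1 / ((n : ℝ) + 1) := hn
        have : (0 : ℝ) < 1 / ((n : ℝ) + 1) := by positivity
        change X x < α
        linarith
      · intro hx
        have hx : X x < α := hx
        obtain ⟨n, hn⟩ := exists_nat_one_div_lt (sub_pos.2 hx)
        exact ⟨n, by change X x ≤ α - 1 / ((n : ℝ) + 1); linarith⟩
    have ht := tendsto_measure_iUnion_atTop (μ := μ)
      (s := fun n : ℕ => {x | X x ≤ α - 1 / ((n : ℝ) + 1)})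
      (fun a b hab x hx => by
        have hx : X x ≤ α - 1 / ((a : ℝ) + 1) := hx
        have : 1 / ((b : ℝ) + 1) ≤ 1 / ((a : ℝ) + 1) := by
          apply one_div_le_one_div_of_le (by positivity)
          have : (a : ℝ) ≤ b := by exact_mod_cast hab
          linarith
        change X x ≤ α - 1 / ((b : ℝ) + 1)
        linarith)
    rw [hun] at ht
    have ht' := (ENNReal.tendsto_toReal (measure_ne_top μ _)).comp ht
    refine le_of_tendsto ht' (Filter.Eventually.of_forall fun n => ?_)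
    by_contra hlt
    push Not at hlt
    have h2 : α - 1 / ((n : ℝ) + 1) ∈ S := le_of_lt hlt
    have h3 := csInf_le hbdd h2
    have : (0 : ℝ) < 1 / ((n : ℝ) + 1) := by positivity
    linarith
  · have hin : (⋂ n : ℕ, {x | X x ≤ α + 1 / ((n : ℝ) + 1)}) = {x | X x ≤ α} := by
      ext x
      simp only [Set.mem_iInter]
      constructor
      · intro h
        by_contra hlt
        have hlt : ¬ X x ≤ α := hlt
        push Not at hlt
        obtain ⟨n, hn⟩ := exists_nat_one_div_lt (sub_pos.2 hlt)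
        have h2 : X x ≤ α + 1 / ((n : ℝ) + 1) := h n
        linarith
      · intro h n
        have h : X x ≤ α := h
        have : (0 : ℝ) < 1 / ((n : ℝ) + 1) := by positivity
        change X x ≤ α + 1 / ((n : ℝ) + 1)
        linarith
    have ht := tendsto_measure_iInter_atTop (μ := μ)
      (s := fun n : ℕ => {x | X x ≤ α + 1 / ((n : ℝ) + 1)})
      (fun n => (hX measurableSet_Iic).nullMeasurableSet)
      (fun a b hab x hx => by
        have hx : X x ≤ α + 1 / ((b : ℝ) + 1) := hx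
        have : 1 / ((b : ℝ) + 1) ≤ 1 / ((a : ℝ) + 1) := by
          apply one_div_le_one_div_of_le (by positivity)
          have : (a : ℝ) ≤ b := by exact_mod_cast hab
          linarith
        change X x ≤ α + 1 / ((a : ℝ) + 1)
        linarith) ⟨0, measure_ne_top _ _⟩
    rw [hin] at ht
    have ht' := (ENNReal.tendsto_toReal (measure_ne_top μ _)).comp ht
    refine ge_of_tendsto ht' (Filter.Eventually.of_forall fun n => ?_)
    have : (0 : ℝ) < 1 / ((n : ℝ) + 1) := by positivity
    obtain ⟨a, haS, ha⟩ := exists_lt_of_csInf_lt hne (show sInf S < α + 1 / ((n : ℝ) + 1) by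
      rw [← hα]; linarith)
    have h2 : ε ≤ μ.real {x | X x ≤ a} := haS
    exact h2.trans (hmono ha.le)

theorem exists_upper_quantile (μ : Measure Ω) [IsProbabilityMeasure μ] {X : Ω → ℝ}
    (hX : Measurable X) {ε : ℝ} (h0 : 0 < ε) (h1 : ε < 1) :
    ∃ γ : ℝ, μ.real {x | γ < X x} ≤ ε ∧ ε ≤ μ.real {x | γ ≤ X x} := by
  obtain ⟨α, h2, h3⟩ := exists_lower_quantile μ hX.neg h0 h1
  refine ⟨-α, ?_, ?_⟩
  · refine le_trans (le_of_eq ?_) h2
    congr 1
    ext x
    change -α < X x ↔ -X x < α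
    constructor <;> intro h <;> linarith
  · refine h3.trans (le_of_eq ?_)
    congr 1
    ext x
    change -X x ≤ α ↔ -α ≤ X x
    constructor <;> intro h <;> linarith

end quantile

variable {d : ℕ} {Ω : Type*} [MeasurableSpace Ω] {μ : Measure Ω} {ρ : Measure ℝ}
  {ω : ℕ × Site d → Ω → ℝ}

/-- Laws of the log partition function agree for the shifted environment. -/
theorem IID.law_shift [IsProbabilityMeasure μ] (h : IID μ ρ ω) (hd : 0 < d) (β : ℝ)
    (k m r : ℕ) {B : Set ℝ} (hB : MeasurableSet B) :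
    μ.real {x | XF β m r (shift hd k (fun p => ω p x)) ∈ B} =
      μ.real {x | XF β m r (fun p => ω p x) ∈ B} := by
  unfold Measure.real
  rw [h.law_eq β m r hB]
  have h2 := (h.shifted hd k).law_eq β m r hB
  rw [← h2]
  rfl

theorem IID.step [IsProbabilityMeasure μ] (h : IID μ ρ ω) (hd : 0 < d) {β : ℝ} (hβ : 0 < β)
    {k m r : ℕ} (hk : 2 * r < k) (hne : (good d m r).Nonempty) {R K δ ε α γ : ℝ} (hR : R ≤ r)
    (hε : 0 < ε)
    (hPol : μ.real {x | ¬ (1 / 2 ≤ Pol β (fun p => ω p x) (k + m) (inBall d (k + m) R))} ≤ δ)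
    (hK : μ.real {x | ∑ i ∈ Finset.range k, ω (i + 1, (i + 1) • e1 hd) x < -K} ≤ δ)
    (hδ : 2 * δ < ε ^ 2) (hα : ε ≤ μ.real {x | XF β (k + m) r (fun p => ω p x) ≤ α})
    (hγ : ε ≤ μ.real {x | γ ≤ XF β m r (fun p => ω p x)}) :
    γ - β * K - Real.log 2 ≤ α := by
  by_contra hcon
  push Not at hcon
  have hind := h.indep_shift hd β (m := m) hk
  have h1 := hind.measure_inter_preimage_eq_mul (Set.Iic α) (Set.Ici γ) measurableSet_Iic
    measurableSet_Ici
  have h2 : μ.real ({x | XF β (k + m) r (fun p => ω p x) ≤ α} ∩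
      {x | γ ≤ XF β m r (shift hd k (fun p => ω p x))}) =
      μ.real {x | XF β (k + m) r (fun p => ω p x) ≤ α} *
        μ.real {x | γ ≤ XF β m r (shift hd k (fun p => ω p x))} := by
    have h3 := congrArg ENNReal.toReal h1
    rw [ENNReal.toReal_mul] at h3
    exact h3
  have h4 : μ.real {x | γ ≤ XF β m r (shift hd k (fun p => ω p x))} =
      μ.real {x | γ ≤ XF β m r (fun p => ω p x)} := h.law_shift hd β k m r measurableSet_Ici
  rw [h4] at h2
  have h5 : ε ^ 2 ≤ μ.real ({x | XF β (k + m) r (fun p => ω p x) ≤ α} ∩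
      {x | γ ≤ XF β m r (shift hd k (fun p => ω p x))}) := by
    rw [h2, sq]
    exact mul_le_mul hα hγ hε.le measureReal_nonneg
  have hsub : {x | XF β (k + m) r (fun p => ω p x) ≤ α} ∩
      {x | γ ≤ XF β m r (shift hd k (fun p => ω p x))} ⊆
      {x | ¬ (1 / 2 ≤ Pol β (fun p => ω p x) (k + m) (inBall d (k + m) R))} ∪
        {x | ∑ i ∈ Finset.range k, ω (i + 1, (i + 1) • e1 hd) x < -K} := by
    rintro x ⟨hx1, hx2⟩
    have hx1 : XF β (k + m) r (fun p => ω p x) ≤ α := hx1
    have hx2 : γ ≤ XF β m r (shift hd k (fun p => ω p x)) := hx2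
    by_contra hx
    rw [Set.mem_union, not_or] at hx
    have hP : 1 / 2 ≤ Pol β (fun p => ω p x) (k + m) (inBall d (k + m) R) := not_not.1 hx.1
    have hS : -K ≤ ∑ i ∈ Finset.range k, ω (i + 1, (i + 1) • e1 hd) x := not_lt.1 hx.2
    have h6 := log_ZE_ge hd k m r hR hP hne
    have h7 : β * (-K) ≤ β * ∑ i ∈ Finset.range k, ω (i + 1, (i + 1) • e1 hd) x :=
      mul_le_mul_of_nonneg_left hS hβ.le
    unfold XF at hx1 hx2
    linarith
  have h8 := (measureReal_mono (μ := μ) hsub).trans (measureReal_union_le _ _)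
  linarith

theorem IID.base [IsProbabilityMeasure μ] (hd : 0 < d) {β : ℝ} (hβ : 0 < β)
    {n r : ℕ} {R K δ ε α : ℝ} (hR : R ≤ r)
    (hPol : μ.real {x | ¬ (1 / 2 ≤ Pol β (fun p => ω p x) n (inBall d n R))} ≤ δ)
    (hK : μ.real {x | ∑ i ∈ Finset.range n, ω (i + 1, (i + 1) • e1 hd) x < -K} ≤ δ)
    (hδ : 2 * δ < ε) (hα : ε ≤ μ.real {x | XF β n r (fun p => ω p x) ≤ α}) :
    - β * K - Real.log 2 ≤ α := by
  by_contra hcon
  push Not at hcon
  have hsub : {x | XF β n r (fun p => ω p x) ≤ α} ⊆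
      {x | ¬ (1 / 2 ≤ Pol β (fun p => ω p x) n (inBall d n R))} ∪
        {x | ∑ i ∈ Finset.range n, ω (i + 1, (i + 1) • e1 hd) x < -K} := by
    intro x hx1
    have hx1 : XF β n r (fun p => ω p x) ≤ α := hx1
    by_contra hx
    rw [Set.mem_union, not_or] at hx
    have hP : 1 / 2 ≤ Pol β (fun p => ω p x) n (inBall d n R) := not_not.1 hx.1
    have hS : -K ≤ ∑ i ∈ Finset.range n, ω (i + 1, (i + 1) • e1 hd) x := not_lt.1 hx.2
    have h6 := log_ZE_ge hd n 0 r hR hP (good_zero_nonempty r)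
    rw [ZE_zero, Real.log_one, add_zero] at h6
    have h7 : β * (-K) ≤ β * ∑ i ∈ Finset.range n, ω (i + 1, (i + 1) • e1 hd) x :=
      mul_le_mul_of_nonneg_left hS hβ.le
    unfold XF at hx1
    change _ ≤ Real.log (ZE β (fun p => ω p x) n (good d n r)) at h6
    linarith
  have h8 := (measureReal_mono (μ := μ) hsub).trans (measureReal_union_le _ _)
  linarith

theorem IID.upper_quantile_bound [IsProbabilityMeasure μ] (h : IID μ ρ ω) (hd : 0 < d) {β : ℝ}
    (hexp : Integrable (fun t => Real.exp (β * t)) ρ) {n r : ℕ} (hne : (good d n r).Nonempty)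
    {ε α : ℝ} (hε : ε < 1)
    (hα : μ.real {x | XF β n r (fun p => ω p x) < α} ≤ ε) :
    α ≤ n * Real.log (2 * d * ∫ t, Real.exp (β * t) ∂ρ) - Real.log (1 - ε) := by
  have h1 := h.upper hexp hne α
  have h2 : 1 - ε ≤ μ.real {x | α ≤ XF β n r (fun p => ω p x)} := by
    have hms : MeasurableSet {x | XF β n r (fun p => ω p x) < α} :=
      ((measurable_XF β n r).comp h.measurable_field) measurableSet_Iio
    have h3 : {x | α ≤ XF β n r (fun p => ω p x)} = {x | XF β n r (fun p => ω p x) < α}ᶜ := by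
      ext x
      change α ≤ XF β n r (fun p => ω p x) ↔ ¬ XF β n r (fun p => ω p x) < α
      exact not_lt.symm
    rw [h3, probReal_compl_eq_one_sub hms]
    linarith
  have hdpos : (0 : ℝ) < d := by exact_mod_cast hd
  have h4 : Real.exp α * (1 - ε) ≤ (2 * d * ∫ t, Real.exp (β * t) ∂ρ) ^ n :=
    (mul_le_mul_of_nonneg_left h2 (Real.exp_pos _).le).trans h1
  have h5 := Real.log_le_log (mul_pos (Real.exp_pos _) (by linarith)) h4
  rw [Real.log_mul (Real.exp_pos _).ne' (by linarith), Real.log_exp, Real.log_pow] at h5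
  linarith

end Pool.Agent.W_MP_7d29a1_pr
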