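import Mathlib

/-!
Abstract fluctuation lower bound: preparation.
-/

namespace Pool.Agent.W_MP_7d29a1_pr

open MeasureTheory ProbabilityTheory Filter Topology

namespace FL

theorem exists_level (ρ : Measure ℝ) [IsProbabilityMeasure ρ] (hnc : ∀ c : ℝ, ρ {c} ≠ 1) :
    ∃ b : ℝ, ρ (Set.Iic b) ≠ 0 ∧ ρ (Set.Ioi b) ≠ 0 := by
  by_contra hcon
  push Not at hcon
  -- monotone facts
  have hmono : ∀ x y : ℝ, x ≤ y → ρ (Set.Iic x) ≤ ρ (Set.Iic y) := fun x y h =>
    measure_mono (Set.Iic_subset_Iic.2 h)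
  have hunion : (⋃ n : ℕ, Set.Iic (n : ℝ)) = Set.univ := by
    ext x
    simp only [Set.mem_iUnion, Set.mem_Iic, Set.mem_univ, iff_true]
    exact exists_nat_ge x
  have hex : ∃ x : ℝ, ρ (Set.Iic x) ≠ 0 := by
    by_contra h
    push Not at h
    have : ρ (⋃ n : ℕ, Set.Iic (n : ℝ)) = 0 := measure_iUnion_null fun n => h n
    rw [hunion, measure_univ] at this
    exact one_ne_zero this
  have hunion2 : (⋃ n : ℕ, Set.Ioi (-(n : ℝ))) = Set.univ := by
    ext x
    simp only [Set.mem_iUnion, Set.mem_Ioi, Set.mem_univ, iff_true]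
    obtain ⟨n, hn⟩ := exists_nat_gt (-x)
    exact ⟨n, by linarith⟩
  have hex2 : ∃ x : ℝ, ρ (Set.Iic x) = 0 := by
    by_contra h
    push Not at h
    have : ρ (⋃ n : ℕ, Set.Ioi (-(n : ℝ))) = 0 := measure_iUnion_null fun n => hcon _ (h _)
    rw [hunion2, measure_univ] at this
    exact one_ne_zero this
  set S : Set ℝ := {x | ρ (Set.Iic x) ≠ 0} with hS
  obtain ⟨x0, hx0⟩ := hex2
  have hbdd : BddBelow S := by
    refine ⟨x0, fun x hx => ?_⟩
    by_contra hlt
    push Not at hlt
    exact hx (le_antisymm ((hmono x x0 hlt.le).trans hx0.le) zero_le)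
  have hne : S.Nonempty := hex
  set c := sInf S with hc
  have h1 : ρ (Set.Ioi c) = 0 := by
    have hu : Set.Ioi c = ⋃ n : ℕ, Set.Ioi (c + 1 / ((n : ℝ) + 1)) := by
      ext x
      simp only [Set.mem_Ioi, Set.mem_iUnion]
      constructor
      · intro hx
        obtain ⟨n, hn⟩ := exists_nat_one_div_lt (sub_pos.2 hx)
        exact ⟨n, by linarith⟩
      · rintro ⟨n, hn⟩
        have : (0 : ℝ) < 1 / ((n : ℝ) + 1) := by positivity
        linarith
    rw [hu]
    refine measure_iUnion_null fun n => ?_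
    have hpos : (0 : ℝ) < 1 / ((n : ℝ) + 1) := by positivity
    obtain ⟨x, hxS, hx⟩ := exists_lt_of_csInf_lt hne (show sInf S < c + 1 / ((n : ℝ) + 1) by
      rw [← hc]; linarith)
    have h2 := hcon x hxS
    exact measure_mono_null (Set.Ioi_subset_Ioi hx.le) h2
  have h2 : ρ (Set.Iio c) = 0 := by
    have hu : Set.Iio c = ⋃ n : ℕ, Set.Iic (c - 1 / ((n : ℝ) + 1)) := by
      ext x
      simp only [Set.mem_Iio, Set.mem_iUnion, Set.mem_Iic]
      constructor
      · intro hx
        obtain ⟨n, hn⟩ := exists_nat_one_div_lt (sub_pos.2 hx)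
        exact ⟨n, by linarith⟩
      · rintro ⟨n, hn⟩
        have : (0 : ℝ) < 1 / ((n : ℝ) + 1) := by positivity
        linarith
    rw [hu]
    refine measure_iUnion_null fun n => ?_
    have hpos : (0 : ℝ) < 1 / ((n : ℝ) + 1) := by positivity
    by_contra h
    have : c ≤ c - 1 / ((n : ℝ) + 1) := csInf_le hbdd h
    linarith
  apply hnc c
  have h3 : ρ ({c}ᶜ) = 0 := by
    have : ({c}ᶜ : Set ℝ) = Set.Iio c ∪ Set.Ioi c := by
      ext x
      simp only [Set.mem_compl_iff, Set.mem_singleton_iff, Set.mem_union, Set.mem_Iio, Set.mem_Ioi]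
      exact ne_iff_lt_or_gt
    rw [this]
    exact measure_union_null h2 h1
  exact (prob_compl_eq_zero_iff (measurableSet_singleton c)).1 h3

theorem exists_gap (ρ : Measure ℝ) [IsProbabilityMeasure ρ] (hnc : ∀ c : ℝ, ρ {c} ≠ 1) :
    ∃ b a : ℝ, 0 < a ∧ 0 < ρ.real (Set.Iic b) ∧ 0 < ρ.real (Set.Ici (b + a)) := by
  obtain ⟨b, h1, h2⟩ := exists_level ρ hnc
  have hu : Set.Ioi b = ⋃ n : ℕ, Set.Ici (b + 1 / ((n : ℝ) + 1)) := by
    ext x
    simp only [Set.mem_Ioi, Set.mem_iUnion, Set.mem_Ici]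
    constructor
    · intro hx
      obtain ⟨n, hn⟩ := exists_nat_one_div_lt (sub_pos.2 hx)
      exact ⟨n, by linarith⟩
    · rintro ⟨n, hn⟩
      have : (0 : ℝ) < 1 / ((n : ℝ) + 1) := by positivity
      linarith
  have h3 : ∃ n : ℕ, ρ (Set.Ici (b + 1 / ((n : ℝ) + 1))) ≠ 0 := by
    by_contra h
    push Not at h
    apply h2
    rw [hu]
    exact measure_iUnion_null h
  obtain ⟨n, hn⟩ := h3
  refine ⟨b, 1 / ((n : ℝ) + 1), by positivity, ?_, ?_⟩
  · exact ENNReal.toReal_pos h1 (measure_ne_top _ _)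
  · exact ENNReal.toReal_pos hn (measure_ne_top _ _)

theorem measurePreserving_update {V : Type} [Fintype V] [DecidableEq V] (ρ : Measure ℝ)
    [IsProbabilityMeasure ρ] (s : V) :
    MeasurePreserving (fun p : (V → ℝ) × ℝ => Function.update p.1 s p.2)
      ((Measure.pi fun _ : V => ρ).prod ρ) (Measure.pi fun _ : V => ρ) := by
  have hmeas : Measurable (fun p : (V → ℝ) × ℝ => Function.update p.1 s p.2) := by
    rw [measurable_pi_iff]
    intro i
    by_cases h : i = s
    · subst h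
      simpa using measurable_snd
    · simp only [Function.update_of_ne h]
      exact (measurable_pi_apply i).comp measurable_fst
  refine ⟨hmeas, ?_⟩
  symm
  apply Measure.pi_eq
  intro B hB
  rw [Measure.map_apply hmeas (MeasurableSet.univ_pi hB)]
  have hpre : (fun p : (V → ℝ) × ℝ => Function.update p.1 s p.2) ⁻¹' (Set.univ.pi B) =
      (Set.univ.pi (Function.update B s Set.univ)) ×ˢ (B s) := by
    ext ⟨η, t⟩
    simp only [Set.mem_preimage, Set.mem_pi, Set.mem_univ, true_implies, Set.mem_prod]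
    constructor
    · intro h
      refine ⟨fun i => ?_, by simpa using h s⟩
      by_cases hi : i = s
      · subst hi; simp
      · have := h i
        rw [Function.update_of_ne hi] at this ⊢
        exact this
    · rintro ⟨h1, h2⟩ i
      by_cases hi : i = s
      · subst hi; simpa using h2
      · have := h1 i
        rw [Function.update_of_ne hi] at this ⊢
        exact this
  rw [hpre, Measure.prod_prod, Measure.pi_pi, ← Finset.mul_prod_erase _ _ (Finset.mem_univ s),
    ← Finset.mul_prod_erase (Finset.univ) (fun i => ρ (B i)) (Finset.mem_univ s)]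
  simp only [Function.update_self, measure_univ, one_mul]
  rw [mul_comm]
  congr 1
  refine Finset.prod_congr rfl fun i hi => ?_
  rw [Function.update_of_ne (Finset.ne_of_mem_erase hi)]

/-- The mean zero test function. -/
noncomputable def gf (b a r : ℝ) (t : ℝ) : ℝ :=
  (if t ≤ b then -1 else 0) + (if b + a ≤ t then r else 0)

/-- `log (A e^{βt} + R)` -/
noncomputable def Xf (β A R : ℝ) (t : ℝ) : ℝ := Real.log (A * Real.exp (β * t) + R)

/-- The occupation probability. -/
noncomputable def ff (β A R : ℝ) (t : ℝ) : ℝ := A * Real.exp (β * t) / (A * Real.exp (β * t) + R)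

/-- Indicator that `x` is outside `[α, γ]`. -/
noncomputable def bad (α γ x : ℝ) : ℝ := if α ≤ x ∧ x ≤ γ then 0 else 1

theorem bad_nonneg (α γ x : ℝ) : 0 ≤ bad α γ x := by
  unfold bad; split_ifs <;> norm_num

theorem bad_le_one (α γ x : ℝ) : bad α γ x ≤ 1 := by
  unfold bad; split_ifs <;> norm_num

/-- Clamp. -/
noncomputable def cl (α γ x : ℝ) : ℝ := max α (min γ x)

theorem cl_mono (α γ : ℝ) {x y : ℝ} (h : x ≤ y) : cl α γ x ≤ cl α γ y :=
  max_le_max le_rfl (min_le_min le_rfl h)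

theorem cl_of_bad_eq_zero {α γ x : ℝ} (h : α ≤ x ∧ x ≤ γ) : cl α γ x = x := by
  unfold cl
  rw [min_eq_right h.2, max_eq_right h.1]

theorem cl_mem {α γ : ℝ} (h : α ≤ γ) (x : ℝ) : α ≤ cl α γ x ∧ cl α γ x ≤ γ :=
  ⟨le_max_left _ _, max_le h (min_le_left _ _)⟩

variable {β A R : ℝ}

theorem Z_pos (hA : 0 ≤ A) (hR : 0 ≤ R) (hAR : 0 < A + R) (t : ℝ) :
    0 < A * Real.exp (β * t) + R := by
  rcases hR.eq_or_lt with h | h
  · rw [← h] at hAR ⊢
    have : 0 < A := by linarith
    positivity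
  · have : 0 ≤ A * Real.exp (β * t) := by positivity
    linarith

theorem ff_nonneg (hA : 0 ≤ A) (hR : 0 ≤ R) (t : ℝ) : 0 ≤ ff β A R t := by
  unfold ff; positivity

theorem ff_le_one (hA : 0 ≤ A) (hR : 0 ≤ R) (t : ℝ) : ff β A R t ≤ 1 := by
  unfold ff
  apply div_le_one_of_le₀
  · linarith
  · positivity

theorem Xf_mono (hβ : 0 < β) (hA : 0 ≤ A) (hR : 0 ≤ R) (hAR : 0 < A + R) {t u : ℝ} (h : t ≤ u) :
    Xf β A R t ≤ Xf β A R u := by
  unfold Xf
  apply Real.log_le_log (Z_pos hA hR hAR t)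
  have : Real.exp (β * t) ≤ Real.exp (β * u) := Real.exp_le_exp.2 (by nlinarith)
  nlinarith

theorem ff_mono (hβ : 0 < β) (hA : 0 ≤ A) (hR : 0 ≤ R) (hAR : 0 < A + R) {t u : ℝ} (h : t ≤ u) :
    ff β A R t ≤ ff β A R u := by
  unfold ff
  rw [div_le_div_iff₀ (Z_pos hA hR hAR t) (Z_pos hA hR hAR u)]
  have : Real.exp (β * t) ≤ Real.exp (β * u) := Real.exp_le_exp.2 (by nlinarith)
  nlinarith [mul_le_mul_of_nonneg_left this (mul_nonneg hA hR)]

theorem ff_compare (hβ : 0 < β) (hA : 0 ≤ A) (hR : 0 ≤ R) (hAR : 0 < A + R) {t u : ℝ}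
    (h : t ≤ u) : ff β A R u ≤ ff β A R t * Real.exp (β * (u - t)) := by
  unfold ff
  have hu : Real.exp (β * u) = Real.exp (β * t) * Real.exp (β * (u - t)) := by
    rw [← Real.exp_add]; ring_nf
  have hexp : Real.exp (β * t) ≤ Real.exp (β * u) := Real.exp_le_exp.2 (by nlinarith)
  have hZt := Z_pos (β := β) hA hR hAR t
  have hZu := Z_pos (β := β) hA hR hAR u
  calc A * Real.exp (β * u) / (A * Real.exp (β * u) + R)
      ≤ A * Real.exp (β * u) / (A * Real.exp (β * t) + R) := by
        apply div_le_div_of_nonneg_left (by positivity) hZt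
        nlinarith
    _ = A * Real.exp (β * t) / (A * Real.exp (β * t) + R) * Real.exp (β * (u - t)) := by
        rw [hu]; ring

theorem Xf_gap (hβ : 0 < β) (hA : 0 ≤ A) (hR : 0 ≤ R) (hAR : 0 < A + R) {a t u : ℝ}
    (h : t + a ≤ u) : Xf β A R t + β * a * ff β A R t ≤ Xf β A R u := by
  have hZt := Z_pos (β := β) hA hR hAR t
  have hZu := Z_pos (β := β) hA hR hAR u
  unfold Xf
  have h1 : Real.exp (β * a * ff β A R t) ≤ (1 - ff β A R t) + ff β A R t * Real.exp (β * a) := by
    have hf0 := ff_nonneg (β := β) hA hR t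
    have hf1 := ff_le_one (β := β) hA hR t
    have := (convexOn_exp.2 (Set.mem_univ (0 : ℝ)) (Set.mem_univ (β * a))
      (show 0 ≤ 1 - ff β A R t by linarith) hf0 (by ring))
    simp only [smul_eq_mul, mul_zero, zero_add, Real.exp_zero, mul_one] at this
    rw [mul_comm (β * a)]
    exact this
  have h2 : (A * Real.exp (β * t) + R) * Real.exp (β * a * ff β A R t) ≤
      A * Real.exp (β * u) + R := by
    have h3 : (A * Real.exp (β * t) + R) * ((1 - ff β A R t) + ff β A R t * Real.exp (β * a)) =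
        A * Real.exp (β * t) * Real.exp (β * a) + R := by
      unfold ff
      field_simp
      ring
    have h4 : A * Real.exp (β * t) * Real.exp (β * a) ≤ A * Real.exp (β * u) := by
      rw [mul_assoc, ← Real.exp_add]
      apply mul_le_mul_of_nonneg_left _ hA
      apply Real.exp_le_exp.2
      nlinarith
    calc _ ≤ (A * Real.exp (β * t) + R) *
        ((1 - ff β A R t) + ff β A R t * Real.exp (β * a)) :=
          mul_le_mul_of_nonneg_left h1 hZt.le
      _ ≤ _ := by rw [h3]; linarith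
  have h5 := Real.log_le_log (by positivity) h2
  rwa [Real.log_mul hZt.ne' (Real.exp_pos _).ne', Real.log_exp] at h5

/-- The pointwise inequality at one site. -/
theorem site_pointwise (hβ : 0 < β) {a b p q κ K : ℝ} (ha : 0 < a) (hp : 0 < p) (hq : 0 < q)
    (hκ0 : 0 ≤ κ) (hκ1 : κ ≤ 1) (hK : K = 1 + p / q) (hA : 0 ≤ A) (hR : 0 ≤ R)
    (hAR : 0 < A + R) (α γ : ℝ) :
    ∃ m : ℝ, ∀ t : ℝ,
      m * gf b a (p / q) t + β * a * ff β A R b * (Real.exp (β * (t - b)) *
        ((1 - κ) * (if t ≤ b then 1 else 0) - κ * (if t ≤ b then 0 else 1))) ≤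
      gf b a (p / q) t * cl α γ (Xf β A R t) - β * a * κ * ff β A R t +
        β * a * K * (ff β A R t * bad α γ (Xf β A R t)) := by
  set c1 := β * a with hc1
  have hc1pos : 0 < c1 := by positivity
  set Ψ : ℝ → ℝ := fun t => cl α γ (Xf β A R t) with hΨ
  set f : ℝ → ℝ := ff β A R with hf
  set w : ℝ → ℝ := fun t => bad α γ (Xf β A R t) with hw
  have hf0 : ∀ t, 0 ≤ f t := ff_nonneg hA hR
  have hw0 : ∀ t, 0 ≤ w t := fun t => bad_nonneg _ _ _
  have hw1 : ∀ t, w t ≤ 1 := fun t => bad_le_one _ _ _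
  have hpq : 0 < p / q := by positivity
  have key : ∀ t u, t ≤ b → b + a ≤ u → Ψ t + c1 * f t * (1 - w t) ≤ Ψ u + c1 * (f u * w u) := by
    intro t u ht hu
    have htu : t + a ≤ u := by linarith
    have htu' : t ≤ u := by linarith
    have hΨm : Ψ t ≤ Ψ u := cl_mono _ _ (Xf_mono hβ hA hR hAR htu')
    have hfm : f t ≤ f u := ff_mono hβ hA hR hAR htu'
    by_cases h1 : α ≤ Xf β A R t ∧ Xf β A R t ≤ γ
    · have hwt : w t = 0 := by rw [hw]; simp only [bad, if_pos h1]
      by_cases h2 : α ≤ Xf β A R u ∧ Xf β A R u ≤ γ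
      · have hwu : w u = 0 := by rw [hw]; simp only [bad, if_pos h2]
        have e1 : Ψ t = Xf β A R t := cl_of_bad_eq_zero h1
        have e2 : Ψ u = Xf β A R u := cl_of_bad_eq_zero h2
        rw [hwt, hwu, e1, e2]
        have := Xf_gap hβ hA hR hAR htu
        simp only [sub_zero, mul_one, mul_zero, add_zero]
        exact this
      · have hwu : w u = 1 := by rw [hw]; simp only [bad, if_neg h2]
        rw [hwt, hwu]
        simp only [sub_zero, mul_one]
        nlinarith
    · have hwt : w t = 1 := by rw [hw]; simp only [bad, if_neg h1]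
      rw [hwt]
      have : 0 ≤ c1 * (f u * w u) := mul_nonneg hc1pos.le (mul_nonneg (hf0 u) (hw0 u))
      simp only [sub_self, mul_zero, add_zero]
      linarith
  have hsep : ∃ m, (∀ t, t ≤ b → Ψ t + c1 * f t * (1 - w t) ≤ m) ∧
      ∀ u, b + a ≤ u → m ≤ Ψ u + c1 * (f u * w u) := by
    refine ⟨sSup ((fun t => Ψ t + c1 * f t * (1 - w t)) '' Set.Iic b), ?_, ?_⟩
    · intro t ht
      apply le_csSup
      · refine ⟨Ψ (b + a) + c1 * (f (b + a) * w (b + a)), ?_⟩
        rintro _ ⟨t', ht', rfl⟩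
        exact key t' (b + a) ht' le_rfl
      · exact ⟨t, ht, rfl⟩
    · intro u hu
      apply csSup_le
      · exact ⟨_, b, Set.mem_Iic.2 le_rfl, rfl⟩
      · rintro _ ⟨t', ht', rfl⟩
        exact key t' u ht' hu
  obtain ⟨m, hm1, hm2⟩ := hsep
  refine ⟨m, fun t => ?_⟩
  have hKpq : p / q ≤ K := by rw [hK]; linarith
  have hK1 : 1 ≤ K := by rw [hK]; linarith
  have hfw : 0 ≤ f t * w t := mul_nonneg (hf0 t) (hw0 t)
  have hfw' : f t * w t ≤ f t := mul_le_of_le_one_right (hf0 t) (hw1 t)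
  by_cases h1 : t ≤ b
  · have h2 : ¬ b + a ≤ t := by linarith
    have hg : gf b a (p / q) t = -1 := by simp [gf, h1, h2]
    rw [hg, if_pos h1, if_pos h1]
    have hm := hm1 t h1
    have hcmp : f b * Real.exp (β * (t - b)) ≤ f t := by
      have := ff_compare hβ hA hR hAR h1
      have h3 : Real.exp (β * (b - t)) * Real.exp (β * (t - b)) = 1 := by
        rw [← Real.exp_add]
        ring_nf
        exact Real.exp_zero
      calc f b * Real.exp (β * (t - b)) ≤ f t * Real.exp (β * (b - t)) * Real.exp (β * (t - b)) :=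
            mul_le_mul_of_nonneg_right this (Real.exp_pos _).le
        _ = f t := by rw [mul_assoc, h3, mul_one]
    have h4 : c1 * (1 - κ) * (f b * Real.exp (β * (t - b))) ≤ c1 * (1 - κ) * f t :=
      mul_le_mul_of_nonneg_left hcmp (mul_nonneg hc1pos.le (by linarith))
    have h5 : c1 * (f t * w t) ≤ c1 * K * (f t * w t) := by
      have : c1 * 1 * (f t * w t) ≤ c1 * K * (f t * w t) :=
        mul_le_mul_of_nonneg_right (mul_le_mul_of_nonneg_left hK1 hc1pos.le) hfw
      linarith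
    change m * -1 + c1 * f b * _ ≤ -1 * Ψ t - c1 * κ * f t + c1 * K * (f t * w t)
    nlinarith
  · push Not at h1
    have hcmp : f t ≤ f b * Real.exp (β * (t - b)) := ff_compare hβ hA hR hAR h1.le
    have h4 : c1 * κ * f t ≤ c1 * κ * (f b * Real.exp (β * (t - b))) :=
      mul_le_mul_of_nonneg_left hcmp (mul_nonneg hc1pos.le hκ0)
    rw [if_neg (not_le.2 h1), if_neg (not_le.2 h1)]
    by_cases h2 : b + a ≤ t
    · have hg : gf b a (p / q) t = p / q := by simp [gf, not_le.2 h1, h2]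
      rw [hg]
      have hm := hm2 t h2
      have h5 : m * (p / q) ≤ (Ψ t + c1 * (f t * w t)) * (p / q) :=
        mul_le_mul_of_nonneg_right hm hpq.le
      have h6 : c1 * (p / q) * (f t * w t) ≤ c1 * K * (f t * w t) :=
        mul_le_mul_of_nonneg_right (mul_le_mul_of_nonneg_left hKpq hc1pos.le) hfw
      change m * (p / q) + c1 * f b * _ ≤ p / q * Ψ t - c1 * κ * f t + c1 * K * (f t * w t)
      nlinarith
    · have hg : gf b a (p / q) t = 0 := by simp [gf, not_le.2 h1, h2]
      rw [hg]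
      change m * 0 + c1 * f b * _ ≤ 0 * Ψ t - c1 * κ * f t + c1 * K * (f t * w t)
      have h6 : 0 ≤ c1 * K * (f t * w t) :=
        mul_nonneg (mul_nonneg hc1pos.le (by linarith)) hfw
      nlinarith

end FL

end Pool.Agent.W_MP_7d29a1_pr
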