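import Pool.Agent.W_MP_7d29a1_pr.FluctA

/-!
Abstract fluctuation lower bound: the one-site inequality, integrated.
-/

namespace Pool.Agent.W_MP_7d29a1_pr

open MeasureTheory ProbabilityTheory Filter Topology

namespace FL

theorem measurable_gf (b a r : ℝ) : Measurable (gf b a r) := by
  unfold gf
  exact (Measurable.ite measurableSet_Iic measurable_const measurable_const).add
    (Measurable.ite measurableSet_Ici measurable_const measurable_const)

theorem abs_gf_le (b a : ℝ) {r : ℝ} (hr : 0 ≤ r) (t : ℝ) : |gf b a r t| ≤ 1 + r := by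
  unfold gf
  refine (abs_add_le _ _).trans (add_le_add ?_ ?_)
  · split_ifs <;> norm_num
  · split_ifs
    · rw [abs_of_nonneg hr]
    · simpa using hr

theorem integral_gf (ρ : Measure ℝ) [IsProbabilityMeasure ρ] (b a : ℝ)
    (hq : 0 < ρ.real (Set.Ici (b + a))) :
    ∫ t, gf b a (ρ.real (Set.Iic b) / ρ.real (Set.Ici (b + a))) t ∂ρ = 0 := by
  unfold gf
  have e1 : (fun t : ℝ => if t ≤ b then (-1 : ℝ) else 0) = (Set.Iic b).indicator fun _ => -1 := by
    funext t; simp [Set.indicator]
  have e2 : (fun t : ℝ => if b + a ≤ t then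
      (ρ.real (Set.Iic b) / ρ.real (Set.Ici (b + a))) else 0) =
      (Set.Ici (b + a)).indicator fun _ => (ρ.real (Set.Iic b) / ρ.real (Set.Ici (b + a))) := by
    funext t; simp [Set.indicator]
  rw [integral_add, e1, e2, integral_indicator_const _ measurableSet_Iic,
    integral_indicator_const _ measurableSet_Ici]
  · simp only [smul_eq_mul]
    field_simp
    ring
  · rw [e1]
    exact (integrable_const _).indicator measurableSet_Iic
  · rw [e2]
    exact (integrable_const _).indicator measurableSet_Ici

theorem integrable_exp_shift {ρ : Measure ℝ} {β : ℝ}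
    (hexp : Integrable (fun t => Real.exp (β * t)) ρ) (b : ℝ) :
    Integrable (fun t => Real.exp (β * (t - b))) ρ := by
  have : (fun t => Real.exp (β * (t - b))) = fun t => Real.exp (-(β * b)) * Real.exp (β * t) := by
    funext t
    rw [← Real.exp_add]
    ring_nf
  rw [this]
  exact hexp.const_mul _

theorem M1_pos (ρ : Measure ℝ) [IsProbabilityMeasure ρ] {β b : ℝ}
    (hexp : Integrable (fun t => Real.exp (β * t)) ρ) (hp : 0 < ρ.real (Set.Iic b)) :
    0 < ∫ t in Set.Iic b, Real.exp (β * (t - b)) ∂ρ := by
  rw [integral_pos_iff_support_of_nonneg (fun t => (Real.exp_pos _).le)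
    (integrable_exp_shift hexp b).integrableOn]
  have : Function.support (fun t => Real.exp (β * (t - b))) = Set.univ := by
    ext t; simp [(Real.exp_pos _).ne']
  rw [this, Measure.restrict_apply_univ]
  by_contra h
  push Not at h
  have h0 : ρ (Set.Iic b) = 0 := le_antisymm h zero_le
  rw [Measure.real, h0] at hp
  simp at hp

theorem measurable_Xf (β A R : ℝ) : Measurable (Xf β A R) := by
  unfold Xf; fun_prop

theorem measurable_ff (β A R : ℝ) : Measurable (ff β A R) := by
  unfold ff; fun_prop

theorem measurable_bad (α γ : ℝ) : Measurable (bad α γ) := by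
  unfold bad
  exact Measurable.ite (measurableSet_Icc (a := α) (b := γ)) measurable_const measurable_const

theorem measurable_cl (α γ : ℝ) : Measurable (cl α γ) := by
  unfold cl; fun_prop

theorem abs_cl_le {α γ : ℝ} (h : α ≤ γ) (x : ℝ) : |cl α γ x| ≤ |α| + |γ| := by
  have := cl_mem h x
  rw [abs_le]
  constructor
  · have h1 := neg_abs_le α
    have h2 := abs_nonneg γ
    linarith [this.1]
  · have h1 := le_abs_self γ
    have h2 := abs_nonneg α
    linarith [this.2]

/-- The integrated one-site inequality. -/
theorem site_integral (ρ : Measure ℝ) [IsProbabilityMeasure ρ] {β : ℝ} (hβ : 0 < β)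
    (hexp : Integrable (fun t => Real.exp (β * t)) ρ) {a b p q M1 M2 κ K : ℝ} (ha : 0 < a)
    (hpd : p = ρ.real (Set.Iic b)) (hqd : q = ρ.real (Set.Ici (b + a))) (hp : 0 < p) (hq : 0 < q)
    (hM1 : M1 = ∫ t in Set.Iic b, Real.exp (β * (t - b)) ∂ρ)
    (hM2 : M2 = ∫ t in Set.Ioi b, Real.exp (β * (t - b)) ∂ρ)
    (hM1p : 0 < M1) (hM2p : 0 ≤ M2)
    (hκ : κ = M1 / (M1 + M2)) (hK : K = 1 + p / q) {A R : ℝ} (hA : 0 ≤ A) (hR : 0 ≤ R)
    (hAR : 0 < A + R) {α γ : ℝ} (hαγ : α ≤ γ) :
    0 ≤ ∫ t, (gf b a (p / q) t * cl α γ (Xf β A R t) - β * a * κ * ff β A R t +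
        β * a * K * (ff β A R t * bad α γ (Xf β A R t))) ∂ρ := by
  have hκ0 : 0 ≤ κ := by rw [hκ]; positivity
  have hκ1 : κ ≤ 1 := by rw [hκ]; exact div_le_one_of_le₀ (by linarith) (by positivity)
  obtain ⟨m, hm⟩ := site_pointwise hβ ha hp hq hκ0 hκ1 hK hA hR hAR α γ
  have hE := integrable_exp_shift hexp b
  have hpq : 0 < p / q := by positivity
  have i1 : Integrable (fun t => m * gf b a (p / q) t) ρ :=
    (Integrable.of_bound (measurable_gf b a _).aestronglyMeasurable (1 + p / q)
      (Filter.Eventually.of_forall fun t => abs_gf_le b a hpq.le t)).const_mul m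
  have e3 : (fun t => Real.exp (β * (t - b)) *
        ((1 - κ) * (if t ≤ b then 1 else 0) - κ * (if t ≤ b then 0 else 1))) =
      fun t => (1 - κ) * (Set.Iic b).indicator (fun t => Real.exp (β * (t - b))) t -
        κ * (Set.Ioi b).indicator (fun t => Real.exp (β * (t - b))) t := by
    funext t
    by_cases h : t ≤ b
    · have h' : ¬ b < t := not_lt.2 h
      simp [Set.indicator, h, h']
      ring
    · have h' : b < t := not_le.1 h
      simp [Set.indicator, h, h']
      ring
  have i2 : Integrable (fun t => Real.exp (β * (t - b)) *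
        ((1 - κ) * (if t ≤ b then 1 else 0) - κ * (if t ≤ b then 0 else 1))) ρ := by
    rw [e3]
    exact ((hE.indicator measurableSet_Iic).const_mul _).sub
      ((hE.indicator measurableSet_Ioi).const_mul _)
  have v2 : ∫ t, Real.exp (β * (t - b)) *
        ((1 - κ) * (if t ≤ b then 1 else 0) - κ * (if t ≤ b then 0 else 1)) ∂ρ = 0 := by
    rw [e3, integral_sub ((hE.indicator measurableSet_Iic).const_mul _)
      ((hE.indicator measurableSet_Ioi).const_mul _), integral_const_mul, integral_const_mul,
      integral_indicator measurableSet_Iic, integral_indicator measurableSet_Ioi, ← hM1, ← hM2, hκ]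
    have : M1 + M2 ≠ 0 := by positivity
    field_simp
    ring
  have hint : Integrable (fun t => gf b a (p / q) t * cl α γ (Xf β A R t) -
      β * a * κ * ff β A R t + β * a * K * (ff β A R t * bad α γ (Xf β A R t))) ρ := by
    have hK0 : 0 ≤ K := by rw [hK]; positivity
    refine Integrable.of_bound (C := (1 + p / q) * (|α| + |γ|) + β * a * κ + β * a * K) ?_
      (Filter.Eventually.of_forall fun t => ?_)
    · exact ((((measurable_gf b a _).mul ((measurable_cl α γ).comp (measurable_Xf β A R))).sub
        ((measurable_ff β A R).const_mul _)).add (((measurable_ff β A R).mul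
        ((measurable_bad α γ).comp (measurable_Xf β A R))).const_mul _)).aestronglyMeasurable
    · rw [Real.norm_eq_abs]
      have h1 : |gf b a (p / q) t * cl α γ (Xf β A R t)| ≤ (1 + p / q) * (|α| + |γ|) := by
        rw [abs_mul]
        exact mul_le_mul (abs_gf_le b a hpq.le t) (abs_cl_le hαγ _) (abs_nonneg _) (by positivity)
      have hf0 := ff_nonneg (β := β) hA hR t
      have hf1 := ff_le_one (β := β) hA hR t
      have hb0 := bad_nonneg α γ (Xf β A R t)
      have hb1 := bad_le_one α γ (Xf β A R t)
      have h2 : |β * a * κ * ff β A R t| ≤ β * a * κ := by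
        rw [abs_of_nonneg (by positivity)]
        exact mul_le_of_le_one_right (by positivity) hf1
      have h3 : |β * a * K * (ff β A R t * bad α γ (Xf β A R t))| ≤ β * a * K := by
        rw [abs_of_nonneg (by positivity)]
        exact mul_le_of_le_one_right (by positivity) (mul_le_one₀ hf1 hb0 hb1)
      calc _ ≤ |gf b a (p / q) t * cl α γ (Xf β A R t) - β * a * κ * ff β A R t| +
            |β * a * K * (ff β A R t * bad α γ (Xf β A R t))| := abs_add_le _ _
        _ ≤ |gf b a (p / q) t * cl α γ (Xf β A R t)| + |β * a * κ * ff β A R t| +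
            |β * a * K * (ff β A R t * bad α γ (Xf β A R t))| := by
            gcongr
            exact abs_sub _ _
        _ ≤ _ := by gcongr
  have hmono := integral_mono (i1.add (i2.const_mul (β * a * ff β A R b))) hint hm
  have hzero : ∫ t, ((fun t => m * gf b a (p / q) t) + fun t => β * a * ff β A R b *
      (Real.exp (β * (t - b)) *
        ((1 - κ) * (if t ≤ b then 1 else 0) - κ * (if t ≤ b then 0 else 1)))) t ∂ρ = 0 := by
    rw [integral_add' i1 (i2.const_mul (β * a * ff β A R b)), integral_const_mul, integral_const_mul,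
      v2, hpd, hqd, integral_gf ρ b a (hqd ▸ hq)]
    ring
  rw [hzero] at hmono
  exact hmono

end FL

end Pool.Agent.W_MP_7d29a1_pr
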