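import Mathlib

/-!
The directed polymer in a random environment: simple random walk on `ℤ^d`, site disorder.
-/

namespace Pool.Agent.W_MP_7d29a1_pr

open MeasureTheory ProbabilityTheory

/-- The lattice `ℤ^d`. -/
abbrev Site (d : ℕ) := Fin d → ℤ

/-- A step of the simple random walk: a coordinate direction and a sign. -/
abbrev Step (d : ℕ) := Fin d × Bool

/-- The lattice vector `± e_j` of a step. -/
def vec {d : ℕ} (e : Step d) : Site d := Pi.single e.1 (if e.2 then 1 else -1)

/-- The position `S_i` after the first `i` steps of the step sequence `s` (`i ≤ n`). -/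
def pos {d n : ℕ} (s : Fin n → Step d) (i : ℕ) : Site d :=
  ∑ j : Fin n, if (j : ℕ) < i then vec (s j) else 0

/-- The energy `∑_{i=1}^n η(i, S_i)` of the walk in the environment `η`. -/
def energy {d n : ℕ} (η : ℕ × Site d → ℝ) (s : Fin n → Step d) : ℝ :=
  ∑ i : Fin n, η (i + 1, pos s (i + 1))

/-- The Euclidean norm on `ℤ^d`. -/
noncomputable def nrm {d : ℕ} (x : Site d) : ℝ := Real.sqrt (∑ i, (x i : ℝ) ^ 2)

open Classical in
/-- The polymer measure `P_n^{β,η}` of a set `E` of walks of length `n`: all `(2d)^n` step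
sequences have the same weight under simple random walk. -/
noncomputable def Pol {d : ℕ} (β : ℝ) (η : ℕ × Site d → ℝ) (n : ℕ) (E : Set (Fin n → Step d)) :
    ℝ :=
  (∑ s : Fin n → Step d, if s ∈ E then Real.exp (β * energy η s) else 0) /
    ∑ s : Fin n → Step d, Real.exp (β * energy η s)

/-- The event `max_{0 ≤ i ≤ n} ‖S_i‖ ≤ r`. -/
def inBall (d n : ℕ) (r : ℝ) : Set (Fin n → Step d) := {s | ∀ i ≤ n, nrm (pos s i) ≤ r}

/-- The set in the definition of the wandering exponent. -/
def nuSet {Ω : Type*} [MeasurableSpace Ω] (μ : Measure Ω) {d : ℕ} (β : ℝ)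
    (ω : ℕ × Site d → Ω → ℝ) : Set ℝ :=
  {a | 0 < a ∧ ∫ x, Filter.liminf
    (fun n : ℕ => Pol β (fun p => ω p x) n (inBall d n ((n : ℝ) ^ a))) Filter.atTop ∂μ = 1}

/-- The wandering exponent `ν`. -/
noncomputable def nu {Ω : Type*} [MeasurableSpace Ω] (μ : Measure Ω) {d : ℕ} (β : ℝ)
    (ω : ℕ × Site d → Ω → ℝ) : ℝ := sInf (nuSet μ β ω)

end Pool.Agent.W_MP_7d29a1_pr
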